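import Pool.Agent.Lib_helper2.PT.Defs

/-! [BR] bridge to the Turing machines of Mathlib. -/

namespace Pool.Agent.PTm

open Pool.Agent.Lib57

theorem PTime.computable {α β : Type} [ToD α] [ToD β] {f : α → β} (hf : PTime f) :
    Nonempty (Turing.TM2ComputableInPolyTime (fun a : α => (toD a).enc)
      (fun b : β => (toD b).enc) f) := by
  obtain ⟨F, ⟨p, m, P, hp, hm, h⟩, hF⟩ := hf
  refine computable_of_prog _ _ f p 0 0 P (fun a => ?_)
  obtain ⟨t, ht, he⟩ := h (toD a) (Function.update (fun _ => []) 0 (toD a).enc) ⟨a, rfl⟩ (by simp)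
    (fun r hr _ => by rw [Function.update_of_ne (by omega)])
  refine ⟨t, by simpa using ht, ?_⟩
  rw [Function.update_idem, hF] at he
  exact he

end Pool.Agent.PTm
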