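import Pool.Agent.Lib_helper2.PT.ALG
import Pool.Agent.Lib_helper2.PT.NUM

/-! [EPT] the algorithm runs in polynomial time. -/

namespace Pool.Agent.EFX3

open Pool.Agent.PTm

section basics

variable {γ : Type} [ToD γ]

theorem pt_fst {α β : Type} [ToD α] [ToD β] : PTime (fun p : α × β => p.1) :=
  PTime.fst PTime.id
theorem pt_snd {α β : Type} [ToD α] [ToD β] : PTime (fun p : α × β => p.2) :=
  PTime.snd PTime.id

theorem pt_wgt (i : Fin 3) : PTime (fun g : Good => g.2 i) :=
  PTime.app pt_snd (PTime.const i)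

theorem pt_val (i : Fin 3) {X : γ → List Good} (hX : PTime X) :
    PTime (fun x => val i (X x)) :=
  PTime.sum (γ := γ) (α := Good) (l := X) (f := fun _ g => g.2 i) hX
    (PTime.comp (pt_wgt i) pt_snd)

theorem pt_ok (i : Fin 3) {X Y : γ → List Good} (hX : PTime X) (hY : PTime Y) :
    PTime (fun x => ok i (X x) (Y x)) := by
  refine PTime.all (f := fun x g => decide (val i (Y x) ≤ val i (X x) + g.2 i)) hY ?_
  exact PTime.nat_le (pt_val i (PTime.comp hY pt_fst))
    (PTime.nat_add (pt_val i (PTime.comp hX pt_fst)) (PTime.comp (pt_wgt i) pt_snd))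

theorem pt_appc {P : γ → Part} (hP : PTime P) (j : Fin 3) : PTime (fun x => P x j) :=
  PTime.app hP (PTime.const j)

theorem pt_feas (i : Fin 3) {P : γ → Part} {j : γ → Fin 3} (hP : PTime P) (hj : PTime j) :
    PTime (fun x => feas i (P x) (j x)) := by
  have hX : PTime (fun x => P x (j x)) := PTime.app hP hj
  exact PTime.and (pt_ok i hX (pt_appc hP 0))
    (PTime.and (pt_ok i hX (pt_appc hP 1)) (pt_ok i hX (pt_appc hP 2)))

theorem pt_efx {P : γ → Part} (hP : PTime P) : PTime (fun x => efx (P x)) :=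
  PTime.and (pt_feas 0 hP (PTime.const 0))
    (PTime.and (pt_feas 1 hP (PTime.const 1)) (pt_feas 2 hP (PTime.const 2)))

theorem pt_vec {X Y Z : γ → List Good} (hX : PTime X) (hY : PTime Y) (hZ : PTime Z) :
    PTime (fun x => (![X x, Y x, Z x] : Part)) := by
  refine PTime.lam fun i => ?_
  fin_cases i
  · exact hX
  · exact hY
  · exact hZ

theorem pt_upd0 : PTime (fun p : Part × Part => upd p.1 p.2) := by
  have h1 : PTime (fun p : Part × Part => p.1) := pt_fst
  have h2 : PTime (fun p : Part × Part => p.2) := pt_snd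
  have c : ∀ j, PTime (fun p : Part × Part => p.2 j) := fun j => pt_appc h2 j
  have v : ∀ i j k, PTime (fun p : Part × Part => (![p.2 i, p.2 j, p.2 k] : Part)) :=
    fun i j k => pt_vec (c i) (c j) (c k)
  exact PTime.ite (pt_efx h1) h1 (PTime.ite (pt_efx (v 0 1 2)) (v 0 1 2)
    (PTime.ite (pt_efx (v 0 2 1)) (v 0 2 1) (PTime.ite (pt_efx (v 1 0 2)) (v 1 0 2)
    (PTime.ite (pt_efx (v 1 2 0)) (v 1 2 0) (PTime.ite (pt_efx (v 2 0 1)) (v 2 0 1)
    (PTime.ite (pt_efx (v 2 1 0)) (v 2 1 0) h1))))))

theorem pt_upd {A P : γ → Part} (hA : PTime A) (hP : PTime P) :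
    PTime (fun x => upd (A x) (P x)) := PTime.comp pt_upd0 (PTime.pair hA hP)

theorem pt_vle (a i j : Fin 3) : PTime (fun P : Part => decide (val a (P i) ≤ val a (P j))) :=
  PTime.nat_le (pt_val a (pt_appc PTime.id i)) (pt_val a (pt_appc PTime.id j))

theorem pt_amin0 (a : Fin 3) : PTime (fun P : Part => amin a P) :=
  PTime.ite (pt_vle a 0 1) (PTime.ite (pt_vle a 0 2) (PTime.const 0) (PTime.const 2))
    (PTime.ite (pt_vle a 1 2) (PTime.const 1) (PTime.const 2))

theorem pt_amin (a : Fin 3) {P : γ → Part} (hP : PTime P) : PTime (fun x => amin a (P x)) :=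
  PTime.comp (pt_amin0 a) hP

theorem pt_eqc {j : γ → Fin 3} (hj : PTime j) (i : Fin 3) : PTime (fun x => decide (j x = i)) :=
  PTime.fin3_eq hj (PTime.const i)

theorem pt_tmin0 (a : Fin 3) : PTime (fun p : Fin 3 × Part => tmin a p.1 p.2) := by
  have h1 : PTime (fun p : Fin 3 × Part => p.1) := pt_fst
  have v : ∀ i j, PTime (fun p : Fin 3 × Part => decide (val a (p.2 i) ≤ val a (p.2 j))) :=
    fun i j => PTime.comp (pt_vle a i j) pt_snd
  exact PTime.ite (pt_eqc h1 0) (PTime.ite (v 1 2) (PTime.const 1) (PTime.const 2))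
    (PTime.ite (pt_eqc h1 1) (PTime.ite (v 0 2) (PTime.const 0) (PTime.const 2))
      (PTime.ite (v 0 1) (PTime.const 0) (PTime.const 1)))

theorem pt_tmin (a : Fin 3) {l : γ → Fin 3} {P : γ → Part} (hl : PTime l) (hP : PTime P) :
    PTime (fun x => tmin a (l x) (P x)) := PTime.comp (pt_tmin0 a) (PTime.pair hl hP)

theorem pt_put0 : PTime (fun p : Part × Fin 3 × Good => put p.1 p.2.1 p.2.2) := by
  have h1 : PTime (fun p : Part × Fin 3 × Good => p.1) := pt_fst
  have h2 : PTime (fun p : Part × Fin 3 × Good => p.2.1) := PTime.fst pt_snd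
  have h3 : PTime (fun p : Part × Fin 3 × Good => p.2.2) := PTime.snd pt_snd
  exact PTime.update h1 h2 (PTime.cons h3 (PTime.app h1 h2))

theorem pt_put {P : γ → Part} {j : γ → Fin 3} {g : γ → Good} (hP : PTime P) (hj : PTime j)
    (hg : PTime g) : PTime (fun x => put (P x) (j x) (g x)) :=
  PTime.comp pt_put0 (PTime.pair hP (PTime.pair hj hg))

end basics

theorem sz_put (P : Part) (j : Fin 3) (g : Good) : sz (put P j g) = sz P + sz g + 1 := by
  rw [sz_fun, sz_fun, put]
  fin_cases j <;> simp <;> ring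

/-- total size of a list of goods without the end mark -/
theorem sz_lpt3 (a : Fin 3) (P : Part) (N : List Good) : sz (lpt3 a P N) + 1 = sz P + sz N := by
  rw [lpt3]
  induction N generalizing P with
  | nil => simp
  | cons g N ih => rw [List.foldl_cons, ih, sz_put, sz_cons]; ring

theorem sz_lpt2 (a l : Fin 3) (P : Part) (N : List Good) :
    sz (lpt2 a l P N) + 1 = sz P + sz N := by
  rw [lpt2]
  induction N generalizing P with
  | nil => simp
  | cons g N ih => rw [List.foldl_cons, ih, sz_put, sz_cons]; ring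

section lists

variable {γ : Type} [ToD γ]

theorem pt_lpt3_0 (a : Fin 3) : PTime (fun p : Part × List Good => lpt3 a p.1 p.2) := by
  refine PTime.foldl_add (γ := Part × List Good) (α := Good) (β := Part)
    (l := fun p => p.2) (i := fun p => p.1) (s := fun _ Q g => put Q (amin a Q) g)
    pt_snd pt_fst ?_ (Polynomial.X + 1) ?_
  · have h1 : PTime (fun p : (Part × List Good) × Part × Good => p.2.1) := PTime.fst pt_snd
    have h2 : PTime (fun p : (Part × List Good) × Part × Good => p.2.2) := PTime.snd pt_snd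
    exact pt_put h1 (pt_amin a h1) h2
  · intro x b g hg
    rw [sz_put]
    have h1 := sz_le_of_mem hg
    have h2 : sz x = sz x.1 + sz x.2 + 1 := rfl
    simp only [Polynomial.eval_add, Polynomial.eval_X, Polynomial.eval_one]
    omega

theorem pt_lpt3 (a : Fin 3) {P : γ → Part} {N : γ → List Good} (hP : PTime P) (hN : PTime N) :
    PTime (fun x => lpt3 a (P x) (N x)) := PTime.comp (pt_lpt3_0 a) (PTime.pair hP hN)

theorem pt_lpt2_0 (a : Fin 3) :
    PTime (fun p : Fin 3 × Part × List Good => lpt2 a p.1 p.2.1 p.2.2) := by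
  refine PTime.foldl_add (γ := Fin 3 × Part × List Good) (α := Good) (β := Part)
    (l := fun p => p.2.2) (i := fun p => p.2.1) (s := fun x Q g => put Q (tmin a x.1 Q) g)
    (PTime.snd pt_snd) (PTime.fst pt_snd) ?_ (Polynomial.X + 1) ?_
  · have h0 : PTime (fun p : (Fin 3 × Part × List Good) × Part × Good => p.1.1) :=
      PTime.fst pt_fst
    have h1 : PTime (fun p : (Fin 3 × Part × List Good) × Part × Good => p.2.1) :=
      PTime.fst pt_snd
    have h2 : PTime (fun p : (Fin 3 × Part × List Good) × Part × Good => p.2.2) :=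
      PTime.snd pt_snd
    exact pt_put h1 (pt_tmin a h0 h1) h2
  · intro x b g hg
    rw [sz_put]
    have h1 := sz_le_of_mem hg
    have h2 : sz x = sz x.1 + (sz x.2.1 + sz x.2.2 + 1) + 1 := rfl
    simp only [Polynomial.eval_add, Polynomial.eval_X, Polynomial.eval_one]
    omega

theorem pt_lpt2 (a : Fin 3) {l : γ → Fin 3} {P : γ → Part} {N : γ → List Good} (hl : PTime l)
    (hP : PTime P) (hN : PTime N) :
    PTime (fun x => lpt2 a (l x) (P x) (N x)) :=
  PTime.comp (pt_lpt2_0 a) (PTime.pair hl (PTime.pair hP hN))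

theorem pt_pick0 (b : Fin 3) : PTime (fun p : Part × Fin 3 => pick b p.1 p.2) := by
  have h1 : PTime (fun p : Part × Fin 3 => p.1) := pt_fst
  have h2 : PTime (fun p : Part × Fin 3 => p.2) := pt_snd
  exact PTime.ite (PTime.and (pt_feas b h1 (PTime.const 0)) (PTime.not (pt_eqc h2 0)))
    (PTime.const 0)
    (PTime.ite (PTime.and (pt_feas b h1 (PTime.const 1)) (PTime.not (pt_eqc h2 1)))
      (PTime.const 1) (PTime.const 2))

theorem pt_pick (b : Fin 3) {P : γ → Part} {l : γ → Fin 3} (hP : PTime P) (hl : PTime l) :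
    PTime (fun x => pick b (P x) (l x)) := PTime.comp (pt_pick0 b) (PTime.pair hP hl)

/-- the non-trivial branch of a step -/
def branch (a b : Fin 3) (P : Part) (l : Fin 3) (acc : Part) (g : Good) (N : List Good) : St :=
  if (!decide (amin a P = l)) = true then (N, put P (amin a P) g, l, acc)
  else
    if feas b (lpt3 a (put P (tmin a l P) g) N) l = true then
      (N, put P (tmin a l P) g, l,
        upd (upd acc (lpt3 a (put P (tmin a l P) g) N)) (lpt2 a l (put P l g) N))
    else if (!feas b (lpt2 a l (put P l g) N) l) = true then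
      (N, put P l g, l,
        upd (upd acc (lpt3 a (put P (tmin a l P) g) N)) (lpt2 a l (put P l g) N))
    else (N, put P (tmin a l P) g, pick b (lpt3 a (put P (tmin a l P) g) N) l,
      upd (upd (upd acc (lpt3 a (put P (tmin a l P) g) N)) (lpt2 a l (put P l g) N))
        (lpt2 a (pick b (lpt3 a (put P (tmin a l P) g) N) l) (put P (tmin a l P) g) N))

theorem step_eq (a b : Fin 3) (s : St) :
    step a b s = lcase s.1 s fun g N => branch a b s.2.1 s.2.2.1 s.2.2.2 g N := rfl

theorem pt_branch (a b : Fin 3) {P : γ → Part} {l : γ → Fin 3} {acc : γ → Part} {g : γ → Good}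
    {N : γ → List Good} (hP : PTime P) (hl : PTime l) (hacc : PTime acc) (hg : PTime g)
    (hN : PTime N) : PTime (fun x => branch a b (P x) (l x) (acc x) (g x) (N x)) := by
  have hPT : PTime (fun x => put (P x) (tmin a (l x) (P x)) (g x)) :=
    pt_put hP (pt_tmin a hl hP) hg
  have hPS : PTime (fun x => put (P x) (l x) (g x)) := pt_put hP hl hg
  have hRT := pt_lpt3 a hPT hN
  have hLS := pt_lpt2 a hl hPS hN
  have hacc' := pt_upd (pt_upd hacc hRT) hLS
  have hpick := pt_pick b hRT hl
  refine PTime.ite (PTime.not (PTime.fin3_eq (pt_amin a hP) hl)) ?_ (PTime.ite (pt_feas b hRT hl)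
    ?_ (PTime.ite (PTime.not (pt_feas b hLS hl)) ?_ ?_))
  · exact PTime.pair hN (PTime.pair (pt_put hP (pt_amin a hP) hg) (PTime.pair hl hacc))
  · exact PTime.pair hN (PTime.pair hPT (PTime.pair hl hacc'))
  · exact PTime.pair hN (PTime.pair hPS (PTime.pair hl hacc'))
  · exact PTime.pair hN (PTime.pair hPT (PTime.pair hpick
      (pt_upd hacc' (pt_lpt2 a hpick hPT hN))))

theorem pt_step (a b : Fin 3) : PTime (fun s : St => step a b s) := by
  refine PTime.lcase (γ := St) (α := Good) (β := St) (l := fun s => s.1) (n := fun s => s)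
    (c := fun s g N => branch a b s.2.1 s.2.2.1 s.2.2.2 g N) pt_fst PTime.id ?_
  have h0 : PTime (fun p : St × Good × List Good => p.1) := pt_fst
  exact pt_branch a b (PTime.fst (PTime.snd h0)) (PTime.fst (PTime.snd (PTime.snd h0)))
    (PTime.snd (PTime.snd (PTime.snd h0))) (PTime.fst pt_snd) (PTime.snd pt_snd)

end lists

theorem sz_perm3 (P : Part) (i j k : Fin 3) (h : i ≠ j ∧ i ≠ k ∧ j ≠ k) :
    sz (![P i, P j, P k] : Part) = sz P := by
  rw [sz_fun, sz_fun]
  obtain ⟨h1, h2, h3⟩ := h
  fin_cases i <;> fin_cases j <;> fin_cases k <;> simp_all <;> ring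

theorem sz_upd (acc P : Part) : sz (upd acc P) ≤ max (sz acc) (sz P) := by
  rw [upd]
  split_ifs
  · exact le_max_left _ _
  · rw [sz_perm3 P 0 1 2 (by decide)]; exact le_max_right _ _
  · rw [sz_perm3 P 0 2 1 (by decide)]; exact le_max_right _ _
  · rw [sz_perm3 P 1 0 2 (by decide)]; exact le_max_right _ _
  · rw [sz_perm3 P 1 2 0 (by decide)]; exact le_max_right _ _
  · rw [sz_perm3 P 2 0 1 (by decide)]; exact le_max_right _ _
  · rw [sz_perm3 P 2 1 0 (by decide)]; exact le_max_right _ _
  · exact le_max_left _ _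

theorem sz_fin3 (i : Fin 3) : sz i ≤ 7 := by
  fin_cases i <;> decide

/-- the size invariant of the walk -/
def Inv (K M : ℕ) (s : St) : Prop := sz s.2.1 + sz s.1 ≤ K ∧ sz s.2.2.2 ≤ M

theorem inv_step (a b : Fin 3) (K M : ℕ) (hKM : K ≤ M) (s : St) (h : Inv K M s) :
    Inv K M (step a b s) := by
  obtain ⟨N0, P, l, acc⟩ := s
  obtain ⟨h1, h2⟩ := h
  rw [step_eq]
  cases N0 with
  | nil => exact ⟨h1, h2⟩
  | cons g N =>
    change sz P + sz (g :: N) ≤ K at h1
    change sz acc ≤ M at h2
    rw [sz_cons] at h1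
    rw [lcase_cons]
    change Inv K M (branch a b P l acc g N)
    have hput : ∀ j, sz (put P j g) + sz N ≤ K := by
      intro j; rw [sz_put]; omega
    have hR : ∀ j, sz (lpt3 a (put P j g) N) ≤ M := by
      intro j
      have := sz_lpt3 a (put P j g) N
      have := hput j
      omega
    have hL : ∀ j l', sz (lpt2 a l' (put P j g) N) ≤ M := by
      intro j l'
      have := sz_lpt2 a l' (put P j g) N
      have := hput j
      omega
    have hupd : ∀ A B : Part, sz A ≤ M → sz B ≤ M → sz (upd A B) ≤ M :=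
      fun A B hA hB => (sz_upd A B).trans (max_le hA hB)
    rw [branch]
    split_ifs
    · exact ⟨hput _, h2⟩
    · exact ⟨hput _, hupd _ _ (hupd _ _ h2 (hR _)) (hL _ _)⟩
    · exact ⟨hput _, hupd _ _ (hupd _ _ h2 (hR _)) (hL _ _)⟩
    · exact ⟨hput _, hupd _ _ (hupd _ _ (hupd _ _ h2 (hR _)) (hL _ _)) (hL _ _)⟩

theorem inv_fold (a b : Fin 3) (K M : ℕ) (hKM : K ≤ M) (N' : List Good) (s : St)
    (h : Inv K M s) : Inv K M (N'.foldl (fun s _ => step a b s) s) := by
  induction N' generalizing s with
  | nil => exact h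
  | cons g N' ih => exact ih _ (inv_step a b K M hKM s h)

/-- the initial label of the walk -/
def label0 (b : Fin 3) (R : Part) : Fin 3 :=
  if feas b R 0 = true then (0 : Fin 3) else if feas b R 1 = true then 1 else 2

/-- the initial state of the walk -/
def init (a b : Fin 3) (p : List Good × Part) : St :=
  (p.1, (fun _ => []), label0 b (lpt3 a (fun _ => []) p.1),
    upd (upd p.2 (lpt3 a (fun _ => []) p.1))
      (lpt2 a (label0 b (lpt3 a (fun _ => []) p.1)) (fun _ => []) p.1))

theorem walk_eqE (a b : Fin 3) (N : List Good) (acc : Part) :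
    walk a b N acc = (N.foldl (fun s _ => step a b s) (init a b (N, acc))).2.2.2 := rfl

theorem pt_init (a b : Fin 3) : PTime (init a b) := by
  have h1 : PTime (fun p : List Good × Part => p.1) := pt_fst
  have h2 : PTime (fun p : List Good × Part => p.2) := pt_snd
  have h0 : PTime (fun _ : List Good × Part => (fun _ => [] : Part)) := PTime.const _
  have hR := pt_lpt3 a h0 h1
  have hl : PTime (fun p : List Good × Part => label0 b (lpt3 a (fun _ => []) p.1)) :=
    PTime.ite (pt_feas b hR (PTime.const 0)) (PTime.const 0)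
      (PTime.ite (pt_feas b hR (PTime.const 1)) (PTime.const 1) (PTime.const 2))
  exact PTime.pair h1 (PTime.pair h0 (PTime.pair hl (pt_upd (pt_upd h2 hR) (pt_lpt2 a hl h0 h1))))

theorem inv_init (a b : Fin 3) (p : List Good × Part) :
    Inv (sz (fun _ => [] : Part) + sz p) (sz (fun _ => [] : Part) + sz p) (init a b p) := by
  have hp : sz p = sz p.1 + sz p.2 + 1 := rfl
  have h3 := sz_lpt3 a (fun _ => []) p.1
  have h2 := sz_lpt2 a (label0 b (lpt3 a (fun _ => []) p.1)) (fun _ => []) p.1
  refine ⟨?_, ?_⟩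
  · change sz (fun _ => [] : Part) + sz p.1 ≤ _
    omega
  · refine (sz_upd _ _).trans (max_le ((sz_upd _ _).trans (max_le ?_ ?_)) ?_) <;> omega

theorem pt_walk0 (a b : Fin 3) : PTime (fun p : List Good × Part => walk a b p.1 p.2) := by
  have h : PTime (fun p : List Good × Part =>
      p.1.foldl (fun s _ => step a b s) (init a b (p.1, p.2))) := by
    refine PTime.foldl (γ := List Good × Part) (α := Good) (β := St) (l := fun p => p.1)
      (i := fun p => init a b (p.1, p.2)) (s := fun _ s _ => step a b s) pt_fst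
      (pt_init a b) ?_ (2 * (Polynomial.X + Polynomial.C (sz (fun _ => [] : Part))) + 10) ?_
    · exact PTime.comp (pt_step a b) (PTime.fst pt_snd)
    · intro p l' _
      have hI := inv_fold a b _ _ le_rfl l' _ (inv_init a b (p.1, p.2))
      set s := l'.foldl (fun s _ => step a b s) (init a b (p.1, p.2)) with hs
      obtain ⟨h1, h2⟩ := hI
      have h3 : sz s = sz s.1 + (sz s.2.1 + (sz s.2.2.1 + sz s.2.2.2 + 1) + 1) + 1 := rfl
      have h4 := sz_fin3 s.2.2.1
      simp only [Polynomial.eval_add, Polynomial.eval_mul, Polynomial.eval_X, Polynomial.eval_C,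
        Polynomial.eval_ofNat]
      change sz s ≤ _
      have h5 : sz (p.1, p.2) = sz p := rfl
      rw [h5] at h1 h2
      omega
  exact PTime.snd (PTime.snd (PTime.snd h))

theorem pt_walk {γ : Type} [ToD γ] (a b : Fin 3) {N : γ → List Good} {acc : γ → Part}
    (hN : PTime N) (hacc : PTime acc) : PTime (fun x => walk a b (N x) (acc x)) :=
  PTime.comp (pt_walk0 a b) (PTime.pair hN hacc)

theorem pt_before (a b : Fin 3) {γ : Type} [ToD γ] {g h : γ → Good} (hg : PTime g)
    (hh : PTime h) : PTime (fun x => before a b (g x) (h x)) :=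
  PTime.or (PTime.not (PTime.nat_le (PTime.comp (pt_wgt a) hg) (PTime.comp (pt_wgt a) hh)))
    (PTime.and (PTime.nat_le (PTime.comp (pt_wgt a) hh) (PTime.comp (pt_wgt a) hg))
      (PTime.nat_le (PTime.comp (pt_wgt b) hh) (PTime.comp (pt_wgt b) hg)))

theorem pt_ins (a b : Fin 3) : PTime (fun p : Good × List Good => ins a b p.1 p.2) := by
  refine PTime.listRec_add (γ := Good × List Good) (α := Good) (β := List Good)
    (l := fun p => p.2) (n := fun p => [p.1])
    (c := fun p h t r => if before a b p.1 h = true then p.1 :: h :: t else h :: r)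
    pt_snd (PTime.cons pt_fst (PTime.const [])) ?_ (2 * Polynomial.X + 2) ?_
  · have hg : PTime (fun q : (Good × List Good) × Good × List Good × List Good => q.1.1) :=
      PTime.fst pt_fst
    have hh : PTime (fun q : (Good × List Good) × Good × List Good × List Good => q.2.1) :=
      PTime.fst pt_snd
    have ht : PTime (fun q : (Good × List Good) × Good × List Good × List Good => q.2.2.1) :=
      PTime.fst (PTime.snd pt_snd)
    have hr : PTime (fun q : (Good × List Good) × Good × List Good × List Good => q.2.2.2) :=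
      PTime.snd (PTime.snd pt_snd)
    exact PTime.ite (pt_before a b hg hh) (PTime.cons hg (PTime.cons hh ht)) (PTime.cons hh hr)
  · intro x r h t hs
    have hsuf : sz (h :: t) ≤ sz x.2 := by
      obtain ⟨l1, hl1⟩ := hs
      rw [← hl1]
      clear hl1
      induction l1 with
      | nil => exact le_rfl
      | cons y l1 ih => rw [List.cons_append, sz_cons y]; omega
    have hx : sz x = sz x.1 + sz x.2 + 1 := rfl
    have hmem : sz h ≤ sz (h :: t) := sz_le_of_mem (List.mem_cons_self ..)
    simp only [Polynomial.eval_add, Polynomial.eval_mul, Polynomial.eval_X, Polynomial.eval_ofNat]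
    split_ifs
    · rw [sz_cons]; omega
    · rw [sz_cons]; omega

theorem sz_ins (a b : Fin 3) (g : Good) (l : List Good) :
    sz (ins a b g l) = sz l + sz g + 1 := by
  induction l with
  | nil => simp [ins]; ring
  | cons h t ih =>
    change sz (if before a b g h = true then g :: h :: t else h :: ins a b g t) = _
    split_ifs
    · rw [sz_cons]; ring
    · rw [sz_cons, sz_cons, ih]; ring

theorem pt_srt (a b : Fin 3) : PTime (fun l : List Good => srt a b l) := by
  refine PTime.foldr_add (γ := List Good) (α := Good) (β := List Good) (l := fun l => l)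
    (i := fun _ => []) (s := fun _ g r => ins a b g r) PTime.id (PTime.const [])
    ?_ (Polynomial.X + 1) ?_
  · exact PTime.comp (pt_ins a b) pt_snd
  · intro x r g hg
    rw [sz_ins]
    have := sz_le_of_mem hg
    simp only [Polynomial.eval_add, Polynomial.eval_X, Polynomial.eval_one]
    omega

theorem pt_goods : PTime goods := by
  refine PTime.map (γ := List (Fin 3 → ℕ)) (α := (Fin 3 → ℕ) × ℕ) (β := Good)
    (l := fun I => I.zipIdx) (f := fun _ p => (p.2, p.1)) (PTime.zipIdx PTime.id) ?_
  exact PTime.pair (PTime.snd pt_snd) (PTime.fst pt_snd)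

theorem alg_ptime : PTime alg := by
  have hL : PTime goods := pt_goods
  have hs : ∀ a b : Fin 3, PTime (fun I => srt a b (goods I)) := fun a b =>
    PTime.comp (pt_srt a b) hL
  have hA : PTime (fun I => walk 1 2 (srt 1 2 (goods I)) (walk 0 2 (srt 0 2 (goods I))
      (walk 0 1 (srt 0 1 (goods I)) ![goods I, [], []]))) :=
    pt_walk 1 2 (hs 1 2) (pt_walk 0 2 (hs 0 2) (pt_walk 0 1 (hs 0 1)
      (pt_vec hL (PTime.const []) (PTime.const []))))
  refine PTime.lam fun i => ?_
  exact PTime.map (γ := List (Fin 3 → ℕ)) (α := Good) (β := ℕ)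
    (f := fun _ g => g.1) (pt_appc hA i) (PTime.fst pt_snd)

end Pool.Agent.EFX3
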