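import Pool.Agent.Lib_helper2.PT.Defs

/-! EFX for three agents two of whom rank the goods alike: the algorithm. -/

namespace Pool.Agent.EFX3

open Pool.Agent.PTm

/-- a good: its number and its three values -/
abbrev Good := ℕ × (Fin 3 → ℕ)
/-- three bundles (or an allocation: bundle `i` for agent `i`) -/
abbrev Part := Fin 3 → List Good

/-- value of a bundle for agent `i` -/
def val (i : Fin 3) (X : List Good) : ℕ := (X.map fun g => g.2 i).sum

/-- agent `i` owning `X` does not envy `Y` minus any good -/
def ok (i : Fin 3) (X Y : List Good) : Bool :=
  Y.all fun g => decide (val i Y ≤ val i X + g.2 i)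

/-- bundle `j` of `P` is EFX-feasible for agent `i` -/
def feas (i : Fin 3) (P : Part) (j : Fin 3) : Bool :=
  ok i (P j) (P 0) && (ok i (P j) (P 1) && ok i (P j) (P 2))

/-- the allocation `P` (agent `i` gets `P i`) is EFX -/
def efx (P : Part) : Bool := feas 0 P 0 && (feas 1 P 1 && feas 2 P 2)

/-- replace `acc` by a permutation of `P` if `acc` is not EFX and the permutation is -/
def upd (acc P : Part) : Part :=
  if efx acc = true then acc
  else if efx ![P 0, P 1, P 2] = true then ![P 0, P 1, P 2]
  else if efx ![P 0, P 2, P 1] = true then ![P 0, P 2, P 1]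
  else if efx ![P 1, P 0, P 2] = true then ![P 1, P 0, P 2]
  else if efx ![P 1, P 2, P 0] = true then ![P 1, P 2, P 0]
  else if efx ![P 2, P 0, P 1] = true then ![P 2, P 0, P 1]
  else if efx ![P 2, P 1, P 0] = true then ![P 2, P 1, P 0]
  else acc

/-- first bundle with minimal `a`-value -/
def amin (a : Fin 3) (P : Part) : Fin 3 :=
  if decide (val a (P 0) ≤ val a (P 1)) = true then
    (if decide (val a (P 0) ≤ val a (P 2)) = true then 0 else 2)
  else (if decide (val a (P 1) ≤ val a (P 2)) = true then 1 else 2)

/-- the first bundle different from `l` with minimal `a`-value among these -/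
def tmin (a : Fin 3) (l : Fin 3) (P : Part) : Fin 3 :=
  if decide (l = 0) = true then (if decide (val a (P 1) ≤ val a (P 2)) = true then 1 else 2)
  else if decide (l = 1) = true then (if decide (val a (P 0) ≤ val a (P 2)) = true then 0 else 2)
  else (if decide (val a (P 0) ≤ val a (P 1)) = true then 0 else 1)

/-- put the good `g` into bundle `j` -/
def put (P : Part) (j : Fin 3) (g : Good) : Part := Function.update P j (g :: P j)

/-- distribute the goods of `N` greedily to all three bundles -/
def lpt3 (a : Fin 3) (P : Part) (N : List Good) : Part :=
  N.foldl (fun Q g => put Q (amin a Q) g) P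

/-- distribute the goods of `N` greedily to the two bundles different from `l` -/
def lpt2 (a l : Fin 3) (P : Part) (N : List Good) : Part :=
  N.foldl (fun Q g => put Q (tmin a l Q) g) P

/-- the first bundle different from `l` that is feasible for `b` -/
def pick (b : Fin 3) (P : Part) (l : Fin 3) : Fin 3 :=
  if (feas b P 0 && !decide (l = 0)) = true then 0
  else if (feas b P 1 && !decide (l = 1)) = true then 1
  else 2

/-- state: remaining goods, bundles, label, best allocation so far -/
abbrev St := List Good × Part × Fin 3 × Part

/-- one step of the walk -/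
def step (a b : Fin 3) (s : St) : St :=
  lcase s.1 s fun g N =>
    let P := s.2.1
    let l := s.2.2.1
    let acc := s.2.2.2
    if (!decide (amin a P = l)) = true then (N, put P (amin a P) g, l, acc)
    else
      let PT := put P (tmin a l P) g
      let PS := put P l g
      let RT := lpt3 a PT N
      let LS := lpt2 a l PS N
      let acc' := upd (upd acc RT) LS
      if feas b RT l = true then (N, PT, l, acc')
      else if (!feas b LS l) = true then (N, PS, l, acc')
      else (N, PT, pick b RT l, upd acc' (lpt2 a (pick b RT l) PT N))

/-- the whole walk for the agents `a`, `b` on the sorted list `N` -/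
def walk (a b : Fin 3) (N : List Good) (acc : Part) : Part :=
  let P0 : Part := fun _ => []
  let R := lpt3 a P0 N
  let l := if feas b R 0 = true then (0 : Fin 3) else if feas b R 1 = true then 1 else 2
  (N.foldl (fun s _ => step a b s) (N, P0, l, upd (upd acc R) (lpt2 a l P0 N))).2.2.2

/-- `g` may stand before `h`: larger for `a`, or equal for `a` and not smaller for `b` -/
def before (a b : Fin 3) (g h : Good) : Bool :=
  !decide (g.2 a ≤ h.2 a) || (decide (h.2 a ≤ g.2 a) && decide (h.2 b ≤ g.2 b))

/-- insertion sort -/
def ins (a b : Fin 3) (g : Good) (l : List Good) : List Good :=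
  List.rec (motive := fun _ => List Good) [g]
    (fun h t r => if before a b g h = true then g :: h :: t else h :: r) l

def srt (a b : Fin 3) (l : List Good) : List Good := l.foldr (fun g r => ins a b g r) []

/-- the goods of an instance (list of value vectors) -/
def goods (I : List (Fin 3 → ℕ)) : List Good := I.zipIdx.map fun p => (p.2, p.1)

/-- the complete algorithm: the output gives every agent a list of numbers of goods -/
def alg (I : List (Fin 3 → ℕ)) : Fin 3 → List ℕ :=
  let L := goods I
  let A := walk 1 2 (srt 1 2 L) (walk 0 2 (srt 0 2 L) (walk 0 1 (srt 0 1 L) ![L, [], []]))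
  fun i => (A i).map Prod.fst

end Pool.Agent.EFX3
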