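import Pool.Agent.Lib_helper2.PT.CDA

/-! [CDB] `car` and `cdr` (scan the prefix code with a unary counter). -/

namespace Pool.Agent.PTm

open Pool.Agent.Lib57

/-- the body of the scanning loop -/
def scanB : Prog :=
  .case 0 .skip (.seq (.pop 0) (.seq (.push 2 false) (.pop 1)))
    (.seq (.pop 0) (.seq (.push 2 true) (.push 1 true)))

/-- stores with three active registers -/
def St (σ : Store) (a b c : List Bool) : Store :=
  Function.update (Function.update (Function.update σ 2 c) 1 b) 0 a

@[simp] theorem St0 (σ : Store) (a b c : List Bool) : St σ a b c 0 = a := by simp [St]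
@[simp] theorem St1 (σ : Store) (a b c : List Bool) : St σ a b c 1 = b := by simp [St]
@[simp] theorem St2 (σ : Store) (a b c : List Bool) : St σ a b c 2 = c := by simp [St]
theorem St_u0 (σ : Store) (a b c d : List Bool) :
    Function.update (St σ a b c) 0 d = St σ d b c := by simp [St]
theorem St_u1 (σ : Store) (a b c d : List Bool) :
    Function.update (St σ a b c) 1 d = St σ a d c := by
  rw [St, Function.update_comm (by decide), Function.update_idem]; rfl
theorem St_u2 (σ : Store) (a b c d : List Bool) :
    Function.update (St σ a b c) 2 d = St σ a b d := by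
  funext k
  by_cases k2 : k = 2
  · subst k2; simp
  · simp [St, Function.update_apply, k2]

theorem scanB_false (σ : Store) (a b c : List Bool) :
    Ex scanB (St σ (false :: a) b c) (St σ a b.tail (false :: c)) 6 := by
  refine Ex.case_false (l := a) (by simp) ?_
  refine ((Ex.pop 0 _).seq ((Ex.push 2 false _).seq (Ex.pop 1 _))).cast ?_
  simp [St_u0, St_u1, St_u2]

theorem scanB_true (σ : Store) (a b c : List Bool) :
    Ex scanB (St σ (true :: a) b c) (St σ a (true :: b) (true :: c)) 6 := by
  refine Ex.case_true (l := a) (by simp) ?_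
  refine ((Ex.pop 0 _).seq ((Ex.push 2 true _).seq (Ex.push 1 true _))).cast ?_
  simp [St_u0, St_u1, St_u2]

/-- the loop reads exactly one tree and decreases the counter by one -/
theorem scan_tree : ∀ (a : D) (σ : Store) (rest : List Bool) (c : ℕ) (w : List Bool)
    (σ' : Store) (T : ℕ),
    Ex (.loop 1 scanB) (St σ rest (List.replicate c true) (a.enc.reverse ++ w)) σ' T →
    Ex (.loop 1 scanB) (St σ (a.enc ++ rest) (List.replicate (c + 1) true) w) σ'
      (7 * a.size + T)
  | .nil, σ, rest, c, w, σ', T, h => by
    have h1 := scanB_false σ rest (List.replicate (c + 1) true) w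
    rw [List.replicate_succ, List.tail_cons] at h1
    refine (Ex.loop_cons (by simp) h1 h).mono ?_
    simp only [D.size]
    omega
  | .cons a b, σ, rest, c, w, σ', T, h => by
    have h1 := scanB_true σ (a.enc ++ (b.enc ++ rest)) (List.replicate (c + 1) true) w
    rw [← List.replicate_succ] at h1
    have e2 := scan_tree b σ rest c (a.enc.reverse ++ true :: w) σ' T (by
      have : (D.cons a b).enc.reverse ++ w = b.enc.reverse ++ (a.enc.reverse ++ true :: w) := by
        simp [D.enc]
      rwa [← this])
    have e1 := scan_tree a σ (b.enc ++ rest) (c + 1) (true :: w) σ' _ e2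
    have hh : (D.cons a b).enc ++ rest = true :: (a.enc ++ (b.enc ++ rest)) := by
      simp [D.enc]
    rw [hh]
    refine (Ex.loop_cons (by simp [List.replicate_succ]) h1 e1).mono ?_
    simp [D.size]
    omega

theorem scan_ex (a : D) (σ : Store) (rest : List Bool) :
    Ex (.loop 1 scanB) (St σ (a.enc ++ rest) [true] []) (St σ rest [] a.enc.reverse)
      (7 * a.size + 1) := by
  have := scan_tree a σ rest 0 [] (St σ rest [] a.enc.reverse) 1 (by
    simpa using Ex.loop_nil (r := 1) (p := scanB) (σ := St σ rest [] a.enc.reverse) (by simp))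
  simpa using this

theorem scanB_bdd : scanB.Bdd 3 := by simp [scanB, Prog.Bdd]

theorem St_self {σ : Store} (h : ∀ r, 1 ≤ r → r < 3 → σ r = []) (l : List Bool) :
    Function.update σ 0 l = St σ l [] [] := by
  funext k
  by_cases k0 : k = 0
  · subst k0; simp [St]
  · by_cases k1 : k = 1
    · subst k1; simp [St, h]
    · by_cases k2 : k = 2
      · subst k2; simp [St, h]
      · simp [St, Function.update_of_ne k0, Function.update_of_ne k1, Function.update_of_ne k2]

theorem St_self' {σ : Store} (h : ∀ r, 1 ≤ r → r < 3 → σ r = []) {l : List Bool}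
    (h0 : σ 0 = l) : σ = St σ l [] [] := by
  rw [← St_self h, ← h0, Function.update_eq_self]

theorem CD.car (V : D → Prop) : CD V D.car := by
  refine CD.mk (.case 0 .skip .skip (.seq (.pop 0) (.seq (.push 1 true)
    (.seq (.loop 1 scanB) (.seq (clr 0) (mv 2 0)))))) 3 (14 * Polynomial.X + 20) ?_ (by omega)
    (fun x σ _ h0 he => ?_)
  · exact ⟨by omega, trivial, trivial, (by show 0 < 3; omega), (by show 1 < 3; omega),
      ⟨by omega, scanB_bdd⟩, clr_bdd (by omega), mv_bdd (by omega) (by omega)⟩
  · cases x with
    | nil =>
      refine (Ex.case_false (l := []) (by simp [h0, D.enc]) (Ex.skip σ)).cast' ?_ (by simp)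
      rw [D.car, ← h0, Function.update_eq_self]
    | cons a b =>
      rw [D.car, St_self he]
      have hs := St_self' he h0
      have e0 : Ex (.pop 0) σ (St σ (a.enc ++ b.enc) [] []) 1 := by
        have := Ex.pop 0 σ
        rw [h0, St_self he] at this
        simpa [D.enc] using this
      have e1 : Ex (.push 1 true) (St σ (a.enc ++ b.enc) [] [])
          (St σ (a.enc ++ b.enc) [true] []) 1 := by
        have := Ex.push 1 true (St σ (a.enc ++ b.enc) [] [])
        rwa [St_u1, St1] at this
      have e2 := scan_ex a σ b.enc
      have e3 : Ex (clr 0) (St σ b.enc [] a.enc.reverse) (St σ [] [] a.enc.reverse)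
          (2 * b.size + 1) := by
        have := clr_ex 0 b.enc (St σ b.enc [] a.enc.reverse) (by simp)
        rwa [St_u0, D.enc_length] at this
      have e4 : Ex (mv 2 0) (St σ [] [] a.enc.reverse) (St σ a.enc [] [])
          (5 * a.size + 1) := by
        have := mv_ex (r := 2) (s := 0) (by decide) a.enc.reverse (St σ [] [] a.enc.reverse)
          (by simp)
        rw [St0, St_u0, St_u2, List.length_reverse, D.enc_length] at this
        simpa using this
      refine (Ex.case_true (l := a.enc ++ b.enc) (by simp [h0, D.enc])
        (e0.seq (e1.seq (e2.seq (e3.seq e4))))).mono ?_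
      simp [D.size]
      omega

theorem CD.cdr (V : D → Prop) : CD V D.cdr := by
  refine CD.mk (.case 0 .skip .skip (.seq (.pop 0) (.seq (.push 1 true)
    (.seq (.loop 1 scanB) (clr 2))))) 3 (14 * Polynomial.X + 20) ?_ (by omega)
    (fun x σ _ h0 he => ?_)
  · exact ⟨by omega, trivial, trivial, (by show 0 < 3; omega), (by show 1 < 3; omega),
      ⟨by omega, scanB_bdd⟩, clr_bdd (by omega)⟩
  · cases x with
    | nil =>
      refine (Ex.case_false (l := []) (by simp [h0, D.enc]) (Ex.skip σ)).cast' ?_ (by simp)
      rw [D.cdr, ← h0, Function.update_eq_self]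
    | cons a b =>
      rw [D.cdr, St_self he]
      have e0 : Ex (.pop 0) σ (St σ (a.enc ++ b.enc) [] []) 1 := by
        have := Ex.pop 0 σ
        rw [h0, St_self he] at this
        simpa [D.enc] using this
      have e1 : Ex (.push 1 true) (St σ (a.enc ++ b.enc) [] [])
          (St σ (a.enc ++ b.enc) [true] []) 1 := by
        have := Ex.push 1 true (St σ (a.enc ++ b.enc) [] [])
        rwa [St_u1, St1] at this
      have e2 := scan_ex a σ b.enc
      have e3 : Ex (clr 2) (St σ b.enc [] a.enc.reverse) (St σ b.enc [] [])
          (2 * a.size + 1) := by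
        have := clr_ex 2 a.enc.reverse (St σ b.enc [] a.enc.reverse) (by simp)
        rwa [St_u2, List.length_reverse, D.enc_length] at this
      refine (Ex.case_true (l := a.enc ++ b.enc) (by simp [h0, D.enc])
        (e0.seq (e1.seq (e2.seq e3)))).mono ?_
      simp [D.size]
      omega

end Pool.Agent.PTm
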