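import Pool.Agent.Lib_helper2.PT.CDA
import Pool.Agent.Lib_helper2.PT.CDB

/-! [CDC] iteration: iterate `f` exactly `|car x|` times starting from `cdr x` (all intermediate
values of polynomial size). -/

namespace Pool.Agent.PTm

open Pool.Agent.Lib57

theorem iter_loop {W : D → Prop} {f : D → D} {p : Prog} {m : ℕ} {P : Polynomial ℕ} (M : ℕ)
    (hmM : m ≤ M) (hM : 0 < M)
    (h : ∀ (x : D) (σ : Store), W x → σ 0 = x.enc → (∀ r, 1 ≤ r → r < m → σ r = []) →
      Ex p σ (Function.update σ 0 (f x).enc) (P.eval x.size)) (B : ℕ) :
    ∀ (l : List Bool) (y : D) (σ : Store), σ M = l → σ 0 = y.enc →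
      (∀ r, 1 ≤ r → r < m → σ r = []) → (∀ k, k < l.length → W (f^[k] y)) →
      (∀ k, k ≤ l.length → (f^[k] y).size ≤ B) →
      Ex (.loop M (.seq (.pop M) p)) σ
        (Function.update (Function.update σ 0 (f^[l.length] y).enc) M [])
        (l.length * (P.eval B + 3) + 1)
  | [], y, σ, hl, h0, _, _, _ => by
    refine (Ex.loop_nil hl).cast' ?_ (by simp)
    have hM0 : M ≠ 0 := by omega
    rw [List.length_nil, Function.iterate_zero, id, ← h0, Function.update_eq_self, ← hl,
      Function.update_eq_self]
  | b :: l, y, σ, hl, h0, he, hWk, hB => by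
    have hM0 : M ≠ 0 := by omega
    have hne : σ M ≠ [] := by simp [hl]
    have e1 : Ex (.pop M) σ (Function.update σ M l) 1 := by
      have := Ex.pop M σ
      rwa [hl, List.tail_cons] at this
    have e2 : Ex p (Function.update σ M l)
        (Function.update (Function.update σ M l) 0 (f y).enc) (P.eval y.size) :=
      h y (Function.update σ M l) (hWk 0 (by simp)) (by rw [Function.update_of_ne hM0.symm, h0])
        (fun r hr hr' => by rw [Function.update_of_ne (by omega), he r hr hr'])
    have e3 := iter_loop M hmM hM h B l (f y)
      (Function.update (Function.update σ M l) 0 (f y).enc)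
      (by rw [Function.update_of_ne hM0]; simp) (by simp)
      (fun r hr hr' => by
        rw [Function.update_of_ne (by omega), Function.update_of_ne (by omega), he r hr hr'])
      (fun k hk => by
        have := hWk (k + 1) (by simpa using hk)
        rwa [Function.iterate_succ_apply] at this)
      (fun k hk => by
        have := hB (k + 1) (by simpa using hk)
        rwa [Function.iterate_succ_apply] at this)
    have hy := poly_mono P (hB 0 (Nat.zero_le _))
    rw [Function.iterate_zero, id] at hy
    refine (Ex.loop_cons hne (e1.seq e2) e3).cast' ?_ ?_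
    · rw [List.length_cons, Function.iterate_succ_apply]
      funext k
      by_cases k0 : k = M
      · subst k0; simp
      · by_cases k1 : k = 0
        · subst k1; simp [Function.update_of_ne k0]
        · simp [Function.update_of_ne k0, Function.update_of_ne k1]
    · rw [List.length_cons, Nat.succ_mul]
      omega

theorem CD.iter {V W : D → Prop} {f : D → D} (hf : CD W f)
    (hW : ∀ (x : D) (k : ℕ), V x → k < x.car.size → W (f^[k] x.cdr)) (Q : Polynomial ℕ)
    (hQ : ∀ (x : D) (k : ℕ), V x → k ≤ x.car.size → (f^[k] x.cdr).size ≤ Q.eval x.size) :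
    CD V (fun x => f^[x.car.size] x.cdr) := by
  obtain ⟨p, m, P, hp, hm, h⟩ := hf
  obtain ⟨pa, ma, Pa, hpa, hma, ha⟩ := CD.car V
  obtain ⟨pd, md, Pd, hpd, hmd, hd⟩ := CD.cdr V
  have hcar : ∀ x : D, x.car.size ≤ x.size := by
    intro x; cases x <;> simp [D.car, D.size]; omega
  obtain ⟨M, hM⟩ : ∃ M, M = max ma (max m md) := ⟨_, rfl⟩
  have hmaM : ma ≤ M := by omega
  have hmM : m ≤ M := by omega
  have hmdM : md ≤ M := by omega
  have hM0 : 0 < M := by omega
  refine CD.mk (.seq (mv2 0 M (M + 1)) (.seq (mv M 0) (.seq pa (.seq (mv 0 M)
    (.seq (mv (M + 1) 0) (.seq pd (.loop M (.seq (.pop M) p)))))))) (M + 2)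
    (25 * Polynomial.X + Pa + Pd + Polynomial.X * (P.comp Q + 3) + 20) ?_ (by omega)
    (fun x σ hx h0 he => ?_)
  · exact ⟨mv2_bdd (by omega) (by omega) (by omega), mv_bdd (by omega) (by omega),
      hpa.mono (by omega), mv_bdd (by omega) (by omega), mv_bdd (by omega) (by omega),
      hpd.mono (by omega), by omega, (by show M < M + 2; omega), hp.mono (by omega)⟩
  · have heM : σ M = [] := he M (by omega) (by omega)
    have heM1 : σ (M + 1) = [] := he (M + 1) (by omega) (by omega)
    have n1 : M ≠ 0 := by omega
    have n2 : M + 1 ≠ 0 := by omega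
    have n3 : M + 1 ≠ M := by omega
    have n4 : M ≠ M + 1 := by omega
    let S : List Bool → List Bool → List Bool → Store := fun a b c =>
      Function.update (Function.update (Function.update σ M b) (M + 1) c) 0 a
    have S0 : ∀ a b c, S a b c 0 = a := fun a b c => by simp [S]
    have SM : ∀ a b c, S a b c M = b := fun a b c => by
      simp [S, Function.update_of_ne n1]
    have SM1 : ∀ a b c, S a b c (M + 1) = c := fun a b c => by
      simp [S]
    have U0 : ∀ a b c d, Function.update (S a b c) 0 d = S d b c := fun a b c d => by
      simp [S]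
    have UM : ∀ a b c d, Function.update (S a b c) M d = S a d c := fun a b c d => by
      funext k
      by_cases k0 : k = M
      · subst k0; simp [SM]
      · rw [Function.update_of_ne k0]
        by_cases k1 : k = 0
        · subst k1; simp [S]
        · by_cases k2 : k = M + 1
          · subst k2; simp [SM1]
          · simp [S, Function.update_of_ne k0, Function.update_of_ne k1,
              Function.update_of_ne k2]
    have UM1 : ∀ a b c d, Function.update (S a b c) (M + 1) d = S a b d := fun a b c d => by
      funext k
      by_cases k0 : k = M + 1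
      · subst k0; simp [SM1]
      · rw [Function.update_of_ne k0]
        by_cases k1 : k = 0
        · subst k1; simp [S]
        · simp [S, Function.update_of_ne k0, Function.update_of_ne k1]
    have Sσ : S x.enc [] [] = σ := by
      funext k
      by_cases k0 : k = 0
      · subst k0; simp [S, h0]
      · by_cases k1 : k = M
        · subst k1; rw [SM, heM]
        · by_cases k2 : k = M + 1
          · subst k2; rw [SM1, heM1]
          · simp [S, Function.update_of_ne k0, Function.update_of_ne k1,
              Function.update_of_ne k2]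
    have Slow : ∀ a b c r, 1 ≤ r → r < M → S a b c r = [] := by
      intro a b c r h1 h2
      simp only [S]
      rw [Function.update_of_ne (by omega), Function.update_of_ne (by omega),
        Function.update_of_ne (by omega)]
      exact he r h1 (by omega)
    have e1 : Ex (mv2 0 M (M + 1)) σ (S [] x.enc.reverse x.enc.reverse) (7 * x.size + 1) := by
      have := mv2_ex (r := 0) (s := M) (s' := M + 1) n1.symm n2.symm n4 x.enc
        (S x.enc [] []) (S0 _ _ _)
      rw [SM, SM1, UM, UM1, U0, Sσ, D.enc_length] at this
      simpa using this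
    have e2 : Ex (mv M 0) (S [] x.enc.reverse x.enc.reverse) (S x.enc [] x.enc.reverse)
        (5 * x.size + 1) := by
      have := mv_ex (r := M) (s := 0) n1 x.enc.reverse (S [] x.enc.reverse x.enc.reverse)
        (SM _ _ _)
      rw [S0, U0, UM, List.length_reverse, D.enc_length] at this
      simpa using this
    have e3 : Ex pa (S x.enc [] x.enc.reverse) (S x.car.enc [] x.enc.reverse)
        (Pa.eval x.size) := by
      have : Ex pa (S x.enc [] x.enc.reverse)
          (Function.update (S x.enc [] x.enc.reverse) 0 x.car.enc) (Pa.eval x.size) :=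
        ha x (S x.enc [] x.enc.reverse) hx (S0 _ _ _)
          (fun r hr hr' => Slow _ _ _ r hr (by omega))
      rwa [U0] at this
    have e4 : Ex (mv 0 M) (S x.car.enc [] x.enc.reverse)
        (S [] x.car.enc.reverse x.enc.reverse) (5 * x.car.size + 1) := by
      have := mv_ex (r := 0) (s := M) n1.symm x.car.enc (S x.car.enc [] x.enc.reverse)
        (S0 _ _ _)
      rw [SM, UM, U0, D.enc_length] at this
      simpa using this
    have e5 : Ex (mv (M + 1) 0) (S [] x.car.enc.reverse x.enc.reverse)
        (S x.enc x.car.enc.reverse []) (5 * x.size + 1) := by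
      have := mv_ex (r := M + 1) (s := 0) n2 x.enc.reverse
        (S [] x.car.enc.reverse x.enc.reverse) (SM1 _ _ _)
      rw [S0, U0, UM1, List.length_reverse, D.enc_length] at this
      simpa using this
    have e6 : Ex pd (S x.enc x.car.enc.reverse []) (S x.cdr.enc x.car.enc.reverse [])
        (Pd.eval x.size) := by
      have : Ex pd (S x.enc x.car.enc.reverse [])
          (Function.update (S x.enc x.car.enc.reverse []) 0 x.cdr.enc) (Pd.eval x.size) :=
        hd x (S x.enc x.car.enc.reverse []) hx (S0 _ _ _)
          (fun r hr hr' => Slow _ _ _ r hr (by omega))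
      rwa [U0] at this
    have e7 := iter_loop M hmM hM0 h (Q.eval x.size) x.car.enc.reverse x.cdr
      (S x.cdr.enc x.car.enc.reverse []) (SM _ _ _) (S0 _ _ _)
      (fun r hr hr' => Slow _ _ _ r hr (by omega))
      (fun k hk => hW x k hx (by simpa using hk))
      (fun k hk => hQ x k hx (by simpa using hk))
    rw [U0, UM, List.length_reverse, D.enc_length] at e7
    refine (e1.seq (e2.seq (e3.seq (e4.seq (e5.seq (e6.seq e7)))))).cast' ?_ ?_
    · rw [← Sσ, U0]
    · have h3 := hcar x
      have h4 : x.car.size * (P.eval (Q.eval x.size) + 3) ≤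
          x.size * (P.eval (Q.eval x.size) + 3) := Nat.mul_le_mul_right _ h3
      simp only [Polynomial.eval_add, Polynomial.eval_mul, Polynomial.eval_X,
        Polynomial.eval_ofNat, Polynomial.eval_comp]
      omega

end Pool.Agent.PTm
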