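import Pool.Agent.Lib_helper2.PT.ALG

/-! [COR] correctness of the algorithm. -/

namespace Pool.Agent.EFX3

open Pool.Agent.PTm

/-! ### bundles and feasibility -/

@[simp] theorem val_nil (i : Fin 3) : val i [] = 0 := rfl
@[simp] theorem val_cons (i : Fin 3) (g : Good) (X : List Good) :
    val i (g :: X) = g.2 i + val i X := by simp [val]

theorem ok_iff {i : Fin 3} {X Y : List Good} :
    ok i X Y = true ↔ ∀ g ∈ Y, val i Y ≤ val i X + g.2 i := by
  simp [ok, List.all_eq_true]

theorem not_ok_iff {i : Fin 3} {X Y : List Good} :
    ok i X Y = false ↔ ∃ g ∈ Y, val i X + g.2 i < val i Y := by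
  rw [← Bool.not_eq_true, ok_iff]
  simp only [not_forall, not_le, exists_prop]

theorem ok_of_le {i : Fin 3} {X Y : List Good} (h : val i Y ≤ val i X) : ok i X Y = true :=
  ok_iff.2 fun _ _ => le_trans h (Nat.le_add_right _ _)

theorem ok_mono {i : Fin 3} {X X' Y : List Good} (h : ok i X Y = true)
    (hX : val i X ≤ val i X') : ok i X' Y = true :=
  ok_iff.2 fun g hg => le_trans (ok_iff.1 h g hg) (Nat.add_le_add_right hX _)

theorem forall_fin3 {p : Fin 3 → Prop} : (∀ k, p k) ↔ p 0 ∧ p 1 ∧ p 2 := by
  constructor
  · intro h; exact ⟨h 0, h 1, h 2⟩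
  · rintro ⟨h0, h1, h2⟩ k; fin_cases k <;> assumption

theorem feas_iff {i : Fin 3} {P : Part} {j : Fin 3} :
    feas i P j = true ↔ ∀ k, ok i (P j) (P k) = true := by
  rw [forall_fin3]; simp [feas]

theorem not_feas_iff {i : Fin 3} {P : Part} {j : Fin 3} :
    feas i P j = false ↔ ∃ k, k ≠ j ∧ ∃ g ∈ P k, val i (P j) + g.2 i < val i (P k) := by
  rw [← Bool.not_eq_true, feas_iff, not_forall]
  constructor
  · rintro ⟨k, hk⟩
    rw [Bool.not_eq_true] at hk
    refine ⟨k, ?_, not_ok_iff.1 hk⟩
    rintro rfl
    rw [ok_of_le le_rfl] at hk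
    exact absurd hk (by simp)
  · rintro ⟨k, _, hk⟩
    exact ⟨k, by rw [not_ok_iff.2 hk]; simp⟩

theorem exists_max (f : Fin 3 → ℕ) : ∃ j, ∀ k, f k ≤ f j := by
  obtain ⟨j, -, hj⟩ := Finset.exists_max_image (Finset.univ : Finset (Fin 3)) f
    ⟨0, Finset.mem_univ _⟩
  exact ⟨j, fun k => hj k (Finset.mem_univ _)⟩

theorem exists_feas (i : Fin 3) (P : Part) : ∃ j, feas i P j = true := by
  obtain ⟨j, hj⟩ := exists_max fun k => val i (P k)
  exact ⟨j, feas_iff.2 fun k => ok_of_le (hj k)⟩

/-- third index -/
theorem third {x y : Fin 3} (h : x ≠ y) : ∃ z, z ≠ x ∧ z ≠ y ∧ ∀ k, k = x ∨ k = y ∨ k = z := by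
  revert x y; decide

theorem two (l : Fin 3) : ∃ s t, s ≠ l ∧ t ≠ l ∧ s ≠ t ∧ ∀ k, k = l ∨ k = s ∨ k = t := by
  revert l; decide

theorem hi_ineq {b : Fin 3} {P : Part} {l : Fin 3} (h : ∀ t, t ≠ l → feas b P t = false) :
    ∃ g ∈ P l, ∀ t, t ≠ l → val b (P t) + g.2 b < val b (P l) := by
  obtain ⟨s, t, hs, ht, hst, hall⟩ := two l
  have key : ∀ s t : Fin 3, s ≠ l → t ≠ l → s ≠ t → (∀ k, k = l ∨ k = s ∨ k = t) →
      val b (P t) ≤ val b (P s) →
      ∃ g ∈ P l, ∀ t, t ≠ l → val b (P t) + g.2 b < val b (P l) := by
    intro s t hs ht hst hall hle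
    obtain ⟨k, hk, g, hg, hlt⟩ := not_feas_iff.1 (h s hs)
    have hkl : k = l := by
      rcases hall k with h1 | h1 | h1
      · exact h1
      · exact absurd h1 hk
      · subst h1; omega
    subst hkl
    refine ⟨g, hg, fun u hu => ?_⟩
    rcases hall u with h1 | h1 | h1
    · exact absurd h1 hu
    · subst h1; exact hlt
    · subst h1; omega
  rcases le_total (val b (P t)) (val b (P s)) with hle | hle
  · exact key s t hs ht hst hall hle
  · exact key t s ht hs hst.symm (fun k => by rcases hall k with h | h | h <;> simp [h]) hle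

/-! ### solved partitions -/

def solved (P : Part) : Prop :=
  ∃ π : Fin 3 → Fin 3, Function.Injective π ∧ ∀ i, feas i P (π i) = true

theorem feas_perm {P : Part} {π : Fin 3 → Fin 3} {i : Fin 3}
    (h : feas i P (π i) = true) : feas i (fun k => P (π k)) i = true :=
  feas_iff.2 fun k => feas_iff.1 h (π k)

theorem efx_iff {P : Part} : efx P = true ↔ ∀ i, feas i P i = true := by
  rw [forall_fin3]; simp [efx]

theorem upd_of_efx {acc P : Part} (h : efx acc = true) : upd acc P = acc := by
  unfold upd; rw [if_pos h]

theorem inj_cases : ∀ π : Fin 3 → Fin 3, Function.Injective π →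
    (π = ![0, 1, 2] ∨ π = ![0, 2, 1] ∨ π = ![1, 0, 2] ∨ π = ![1, 2, 0] ∨ π = ![2, 0, 1] ∨
      π = ![2, 1, 0]) := by
  decide

theorem comp3 (P : Part) (x y z : Fin 3) :
    (fun k => P ((![x, y, z] : Fin 3 → Fin 3) k)) = ![P x, P y, P z] := by
  funext k; fin_cases k <;> rfl

theorem efx_upd {acc P : Part} (h : solved P) : efx (upd acc P) = true := by
  obtain ⟨π, hπ, hf⟩ := h
  have he : efx (fun k => P (π k)) = true := efx_iff.2 fun i => feas_perm (hf i)
  unfold upd
  split_ifs with h1 h2 h3 h4 h5 h6 h7 <;> try assumption
  exfalso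
  rcases inj_cases π hπ with r | r | r | r | r | r <;> subst r <;> rw [comp3] at he <;>
    contradiction

theorem all3 : ∀ a b c : Fin 3, a ≠ b → c ≠ a → c ≠ b → ∀ i : Fin 3, i = a ∨ i = b ∨ i = c := by
  decide

theorem inj3 {a b c x y z : Fin 3} (hab : a ≠ b) (hca : c ≠ a) (hcb : c ≠ b) (hxy : x ≠ y)
    (hxz : x ≠ z) (hyz : y ≠ z) :
    Function.Injective (fun i : Fin 3 => if i = a then x else if i = b then y else z) := by
  have hall := all3 a b c hab hca hcb
  intro i j hij
  simp only at hij
  rcases hall i with h | h | h <;> rcases hall j with h' | h' | h' <;>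
    first
    | (exact h.trans h'.symm)
    | (exfalso; subst h; subst h'; simp [hab.symm, hca, hcb, hxy, hxz, hyz, hxy.symm, hxz.symm,
        hyz.symm] at hij)

theorem solved_of {a b c : Fin 3} (hab : a ≠ b) (hca : c ≠ a) (hcb : c ≠ b) {P : Part}
    {x y z : Fin 3} (hxy : x ≠ y) (hxz : x ≠ z) (hyz : y ≠ z)
    (ha : feas a P x = true) (hb : feas b P y = true) (hc : feas c P z = true) : solved P := by
  have hall := all3 a b c hab hca hcb
  refine ⟨fun i => if i = a then x else if i = b then y else z, inj3 hab hca hcb hxy hxz hyz, ?_⟩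
  · intro i
    rcases hall i with rfl | rfl | rfl
    · simpa using ha
    · simpa [hab.symm] using hb
    · simpa [hca, hcb] using hc

/-- every bundle except `l` is feasible for `a` -/
def Shape (a : Fin 3) (P : Part) (l : Fin 3) : Prop := ∀ t, t ≠ l → feas a P t = true

/-- `b` and `c` both find only `l` feasible -/
def High (b c : Fin 3) (P : Part) (l : Fin 3) : Prop :=
  ∀ t, t ≠ l → feas b P t = false ∧ feas c P t = false

theorem High.feas_b {b c : Fin 3} {P : Part} {l : Fin 3} (h : High b c P l) :
    feas b P l = true := by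
  obtain ⟨j, hj⟩ := exists_feas b P
  by_cases hjl : j = l
  · exact hjl ▸ hj
  · rw [(h j hjl).1] at hj; exact absurd hj (by simp)

theorem low_or_high {a b c : Fin 3} (hab : a ≠ b) (hca : c ≠ a) (hcb : c ≠ b) {P : Part}
    {l : Fin 3} (hs : Shape a P l) (hn : ¬ solved P) :
    (feas b P l = false ∧ feas c P l = false) ∨ High b c P l := by
  cases hb : feas b P l with
  | true =>
    right
    have hc : ∀ t, t ≠ l → feas c P t = false := by
      intro t ht
      by_contra hcon
      rw [Bool.not_eq_false] at hcon
      obtain ⟨z, hz1, hz2, -⟩ := third ht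
      exact hn (solved_of hab hca hcb (x := z) (y := l) (z := t) hz2 hz1 ht.symm (hs z hz2) hb hcon)
    have hcl : feas c P l = true := by
      obtain ⟨j, hj⟩ := exists_feas c P
      by_cases hjl : j = l
      · exact hjl ▸ hj
      · rw [hc j hjl] at hj; exact absurd hj (by simp)
    intro t ht
    refine ⟨?_, hc t ht⟩
    by_contra hcon
    rw [Bool.not_eq_false] at hcon
    obtain ⟨z, hz1, hz2, -⟩ := third ht
    exact hn (solved_of hab hca hcb (x := z) (y := t) (z := l) hz1 hz2 ht (hs z hz2) hcon hcl)
  | false =>
    left
    refine ⟨rfl, ?_⟩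
    by_contra hcon
    rw [Bool.not_eq_false] at hcon
    obtain ⟨j, hj⟩ := exists_feas b P
    have hjl : j ≠ l := by
      rintro rfl; rw [hb] at hj; exact absurd hj (by simp)
    obtain ⟨z, hz1, hz2, -⟩ := third hjl
    exact hn (solved_of hab hca hcb (x := z) (y := j) (z := l) hz1 hz2 hjl (hs z hz2) hj hcon)

theorem exists_high {a b c : Fin 3} (hab : a ≠ b) (hca : c ≠ a) (hcb : c ≠ b) {P : Part}
    (hs : ∀ k, feas a P k = true) (hn : ¬ solved P) : ∃ l, High b c P l := by
  obtain ⟨y, hy⟩ := exists_feas b P
  rcases low_or_high hab hca hcb (l := y) (fun t _ => hs t) hn with h | h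
  · rw [h.1] at hy; exact absurd hy (by simp)
  · exact ⟨y, h⟩

/-! ### sorted cores -/

/-- all goods in the bundles are at least as good as the remaining ones, for `a` and `b` -/
def Srt (a b : Fin 3) (P : Part) (N : List Good) : Prop :=
  (∀ k, ∀ h ∈ P k, ∀ g ∈ N, g.2 a ≤ h.2 a ∧ g.2 b ≤ h.2 b) ∧
    N.Pairwise fun g h => h.2 a ≤ g.2 a ∧ h.2 b ≤ g.2 b

theorem put_same (P : Part) (j : Fin 3) (g : Good) : put P j g j = g :: P j := by
  simp [put]
theorem put_ne (P : Part) {j k : Fin 3} (g : Good) (h : k ≠ j) : put P j g k = P k := by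
  simp [put, h]

theorem mem_put {P : Part} {j k : Fin 3} {g h : Good} (hh : h ∈ put P j g k) :
    h = g ∨ h ∈ P k := by
  by_cases hk : k = j
  · subst hk; rw [put_same] at hh; simpa using hh
  · rw [put_ne _ _ hk] at hh; exact Or.inr hh

theorem val_le_put (i : Fin 3) (P : Part) (j : Fin 3) (g : Good) (k : Fin 3) :
    val i (P k) ≤ val i (put P j g k) := by
  by_cases hk : k = j
  · subst hk; rw [put_same, val_cons]; exact Nat.le_add_left _ _
  · rw [put_ne _ _ hk]

theorem Srt.put {a b : Fin 3} {P : Part} {g : Good} {N : List Good} (h : Srt a b P (g :: N))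
    (j : Fin 3) : Srt a b (put P j g) N := by
  obtain ⟨h1, h2⟩ := h
  rw [List.pairwise_cons] at h2
  refine ⟨fun k x hx y hy => ?_, h2.2⟩
  rcases mem_put hx with rfl | hx
  · exact h2.1 y hy
  · exact h1 k x hx y (List.mem_cons_of_mem _ hy)

theorem amin_le (a : Fin 3) (P : Part) (k : Fin 3) :
    val a (P (amin a P)) ≤ val a (P k) := by
  unfold amin
  fin_cases k <;> split_ifs <;> simp_all <;> omega

theorem tmin_ne (a l : Fin 3) (P : Part) : tmin a l P ≠ l := by
  unfold tmin
  fin_cases l <;> split_ifs <;> simp_all

theorem tmin_le (a l : Fin 3) (P : Part) (k : Fin 3) (hk : k ≠ l) :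
    val a (P (tmin a l P)) ≤ val a (P k) := by
  unfold tmin
  fin_cases l <;> fin_cases k <;> split_ifs <;> simp_all <;> omega

theorem tmin_eq_amin (a l : Fin 3) (P : Part) (h : amin a P ≠ l) : tmin a l P = amin a P := by
  unfold tmin amin at *
  fin_cases l <;> split_ifs at * <;> simp_all <;> omega

theorem Shape.put {a : Fin 3} {P : Part} {l j : Fin 3} {g : Good} (h : Shape a P l)
    (hg : ∀ x ∈ P j, g.2 a ≤ x.2 a) (hj : ∀ t, t ≠ l → val a (P j) ≤ val a (P t)) :
    Shape a (put P j g) l := by
  intro t ht
  rw [feas_iff]
  intro k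
  by_cases hk : k = j
  · subst hk
    by_cases hkt : t = k
    · subst hkt; exact ok_of_le le_rfl
    · rw [ok_iff]
      intro x hx
      rw [put_same] at hx ⊢
      rw [put_ne _ _ hkt, val_cons]
      have h1 := hj t ht
      have h2 : g.2 a ≤ x.2 a := by
        rcases List.mem_cons.1 hx with rfl | hx
        · exact le_rfl
        · exact hg x hx
      omega
  · have h1 := feas_iff.1 (h t ht) k
    rw [put_ne _ _ hk]
    exact ok_mono h1 (val_le_put a P j g t)

theorem Shape.put_amin {a b : Fin 3} {P : Part} {l : Fin 3} {g : Good} {N : List Good}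
    (h : Shape a P l) (hs : Srt a b P (g :: N)) : Shape a (EFX3.put P (amin a P) g) l :=
  h.put (fun x hx => (hs.1 _ x hx g (by simp)).1) fun t _ => amin_le a P t

theorem Shape.put_tmin {a b : Fin 3} {P : Part} {l : Fin 3} {g : Good} {N : List Good}
    (h : Shape a P l) (hs : Srt a b P (g :: N)) : Shape a (EFX3.put P (tmin a l P) g) l :=
  h.put (fun x hx => (hs.1 _ x hx g (by simp)).1) fun t ht => tmin_le a l P t ht

theorem Shape.lpt3 {a b : Fin 3} {l : Fin 3} : ∀ {N : List Good} {P : Part}, Shape a P l →
    Srt a b P N → Shape a (lpt3 a P N) l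
  | [], _, h, _ => h
  | g :: N, P, h, hs => Shape.lpt3 (N := N) (P := EFX3.put P (amin a P) g) (h.put_amin hs) (hs.put _)

theorem Shape.lpt2 {a b : Fin 3} {l : Fin 3} : ∀ {N : List Good} {P : Part}, Shape a P l →
    Srt a b P N → Shape a (lpt2 a l P N) l
  | [], _, h, _ => h
  | g :: N, P, h, hs =>
    Shape.lpt2 (N := N) (P := EFX3.put P (tmin a l P) g) (h.put_tmin hs) (hs.put _)

theorem val_le_lpt3 (i a : Fin 3) (k : Fin 3) : ∀ (N : List Good) (P : Part),
    val i (P k) ≤ val i (lpt3 a P N k)
  | [], _ => le_rfl
  | g :: N, P => le_trans (val_le_put i P (amin a P) g k)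
      (val_le_lpt3 i a k N (put P (amin a P) g))

theorem val_le_lpt2 (i a l : Fin 3) (k : Fin 3) : ∀ (N : List Good) (P : Part),
    val i (P k) ≤ val i (lpt2 a l P N k)
  | [], _ => le_rfl
  | g :: N, P => le_trans (val_le_put i P (tmin a l P) g k)
      (val_le_lpt2 i a l k N (put P (tmin a l P) g))

theorem lpt2_label (a l : Fin 3) : ∀ (N : List Good) (P : Part), lpt2 a l P N l = P l
  | [], _ => rfl
  | g :: N, P => by
    have h := lpt2_label a l N (put P (tmin a l P) g)
    rw [put_ne _ _ (tmin_ne a l P).symm] at h
    exact h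

/-! ### the walk -/

/-- the walk as a recursion on the remaining goods -/
def W (a b : Fin 3) : List Good → Part → Fin 3 → Part → Part
  | [], _, _, acc => acc
  | g :: N, P, l, acc =>
    W a b N (step a b (g :: N, P, l, acc)).2.1 (step a b (g :: N, P, l, acc)).2.2.1
      (step a b (g :: N, P, l, acc)).2.2.2

theorem step_fst (a b : Fin 3) (g : Good) (N : List Good) (P : Part) (l : Fin 3) (acc : Part) :
    (step a b (g :: N, P, l, acc)).1 = N := by
  simp only [step, lcase_cons]
  split_ifs <;> rfl

theorem foldl_step (a b : Fin 3) : ∀ (N M : List Good) (P : Part) (l : Fin 3) (acc : Part),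
    M.length = N.length →
    (M.foldl (fun s _ => step a b s) (N, P, l, acc)).2.2.2 = W a b N P l acc
  | [], M, P, l, acc, h => by
    have : M = [] := List.length_eq_zero_iff.1 h
    subst this; rfl
  | g :: N, [], P, l, acc, h => by simp at h
  | g :: N, m :: M, P, l, acc, h => by
    rw [List.foldl_cons, W]
    have e : step a b (g :: N, P, l, acc) = (N, (step a b (g :: N, P, l, acc)).2.1,
        (step a b (g :: N, P, l, acc)).2.2.1, (step a b (g :: N, P, l, acc)).2.2.2) := by
      conv_lhs => rw [← Prod.mk.eta (p := step a b (g :: N, P, l, acc)), step_fst]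
    rw [e, foldl_step a b N M _ _ _ (by simpa using h)]

theorem W_other {a b : Fin 3} {g : Good} {N : List Good} {P : Part} {l : Fin 3} {acc : Part}
    (h : amin a P ≠ l) : W a b (g :: N) P l acc = W a b N (put P (amin a P) g) l acc := by
  rw [W]
  simp [step, h]

theorem step_acc {a b : Fin 3} {s : St} (h : efx s.2.2.2 = true) :
    (step a b s).2.2.2 = s.2.2.2 := by
  obtain ⟨N, P, l, acc⟩ := s
  cases N with
  | nil => rfl
  | cons g N =>
    simp only [step, lcase_cons]
    simp only at h
    split_ifs <;> simp [upd_of_efx, h]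

theorem W_acc {a b : Fin 3} : ∀ {N : List Good} {P : Part} {l : Fin 3} {acc : Part},
    efx acc = true → W a b N P l acc = acc
  | [], _, _, _, _ => rfl
  | g :: N, P, l, acc, h => by
    rw [W]
    have h1 : (step a b (g :: N, P, l, acc)).2.2.2 = acc := step_acc (s := (g :: N, P, l, acc)) h
    rw [h1]
    exact W_acc h

/-- the walk forwards through the goods that go to `l` -/
theorem advance {a b l : Fin 3} : ∀ (N : List Good) (P : Part), Shape a P l → Srt a b P N →
    (∀ k, k ≠ l → lpt3 a P N k = P k) ∨
    ∃ (N2 : List Good) (C : Part), N2.length ≤ N.length ∧ lpt3 a P N = lpt3 a C N2 ∧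
      (∀ k, k ≠ l → C k = P k) ∧ (∀ i, val i (P l) ≤ val i (C l)) ∧ amin a C ≠ l ∧ Shape a C l ∧
      Srt a b C N2 ∧ (∀ l', l' ≠ l → lpt2 a l' P N = lpt2 a l' C N2 ∧
        ∀ acc, W a b N P l' acc = W a b N2 C l' acc)
  | [], P, _, _ => Or.inl fun _ _ => rfl
  | g :: N, P, h, hs => by
    by_cases hm : amin a P = l
    · have h' : Shape a (put P l g) l := by
        have := h.put_amin hs
        rwa [hm] at this
      rcases advance N (put P l g) h' (hs.put l) with hA | ⟨N2, C, h1, h2, h3, h3', h4, h5, h6, h7⟩
      · left
        intro k hk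
        have := hA k hk
        rw [put_ne _ _ hk] at this
        rw [← this]
        show lpt3 a (put P (amin a P) g) N k = _
        rw [hm]
      · right
        refine ⟨N2, C, ?_, ?_, ?_, ?_, h4, h5, h6, ?_⟩
        · simp; omega
        · show lpt3 a (put P (amin a P) g) N = _
          rw [hm, h2]
        · intro k hk; rw [h3 k hk, put_ne _ _ hk]
        · intro i; exact le_trans (val_le_put i P l g l) (h3' i)
        · intro l' hl'
          obtain ⟨h8, h9⟩ := h7 l' hl'
          have hne : amin a P ≠ l' := by rw [hm]; exact hl'.symm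
          refine ⟨?_, fun acc => ?_⟩
          · show lpt2 a l' (put P (tmin a l' P) g) N = _
            rw [tmin_eq_amin a l' P hne, hm, h8]
          · rw [W_other hne, hm, h9]
    · right
      exact ⟨g :: N, P, le_rfl, rfl, fun _ _ => rfl, fun _ => le_rfl, hm, h, hs,
        fun _ _ => ⟨rfl, fun _ => rfl⟩⟩

theorem pick_eq {b c : Fin 3} {P : Part} {l l' : Fin 3} (hl : l' ≠ l) (h : High b c P l') :
    pick b P l = l' := by
  have hb := h.feas_b
  have h0 := fun t ht => (h t ht).1
  unfold pick
  by_cases h00 : l' = 0
  · subst h00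
    rw [hb]
    simp [hl.symm]
  · rw [h0 0 (Ne.symm h00)]
    by_cases h01 : l' = 1
    · subst h01
      rw [hb]
      simp [hl.symm]
    · rw [h0 1 (Ne.symm h01)]
      have : l' = 2 := by
        revert h00 h01; clear * -; revert l'; decide
      simp [this]

/-- the main induction -/
theorem main {a b c : Fin 3} (hab : a ≠ b) (hca : c ≠ a) (hcb : c ≠ b) :
    ∀ (n : ℕ) (N : List Good) (P : Part) (l : Fin 3) (acc : Part), N.length ≤ n →
      Srt a b P N → Shape a P l → feas b (lpt2 a l P N) l = false →
      High b c (lpt3 a P N) l → efx (W a b N P l acc) = true := by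
  intro n
  induction n with
  | zero =>
    intro N P l acc hN hs hsh hlow hhigh
    have : N = [] := List.length_eq_zero_iff.1 (Nat.le_zero.1 hN)
    subst this
    have := hhigh.feas_b
    change feas b P l = true at this
    change feas b P l = false at hlow
    rw [this] at hlow
    exact absurd hlow (by simp)
  | succ n ih =>
    intro N P l acc hN hs hsh hlow hhigh
    cases N with
    | nil => exact ih [] P l acc (by simp) hs hsh hlow hhigh
    | cons g N =>
      have hNn : N.length ≤ n := by simpa using hN
      by_cases hm : amin a P = l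
      swap
      · rw [W_other hm]
        refine ih N _ l acc hNn (hs.put _) (hsh.put_amin hs) ?_ hhigh
        have := hlow
        change feas b (lpt2 a l (put P (tmin a l P) g) N) l = false at this
        rwa [tmin_eq_amin a l P hm] at this
      · set t := tmin a l P with ht
        have htl : t ≠ l := tmin_ne a l P
        set PT := put P t g with hPT
        set PS := put P l g with hPS
        set RT := lpt3 a PT N with hRT
        set LS := lpt2 a l PS N with hLS
        set acc' := upd (upd acc RT) LS with hacc'
        have hsT : Srt a b PT N := hs.put t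
        have hsS : Srt a b PS N := hs.put l
        have hshT : Shape a PT l := hsh.put_tmin hs
        have hshS : Shape a PS l := by
          have := hsh.put_amin hs
          rwa [hm] at this
        have hstep : W a b (g :: N) P l acc =
            if feas b RT l = true then W a b N PT l acc'
            else if (!feas b LS l) = true then W a b N PS l acc'
            else W a b N PT (pick b RT l) (upd acc' (lpt2 a (pick b RT l) PT N)) := by
          rw [W]
          simp only [step, lcase_cons, hm]
          rw [if_neg (by simp)]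
          split_ifs <;> rfl
        rw [hstep]
        clear hstep
        by_cases hsol1 : solved RT
        · have he : efx acc' = true := by
            have h1 : efx (upd acc RT) = true := efx_upd hsol1
            rw [hacc', upd_of_efx h1]; exact h1
          split_ifs
          · rw [W_acc he]; exact he
          · rw [W_acc he]; exact he
          · rw [upd_of_efx he, W_acc he]; exact he
        by_cases hsol2 : solved LS
        · have he : efx acc' = true := efx_upd hsol2
          split_ifs
          · rw [W_acc he]; exact he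
          · rw [W_acc he]; exact he
          · rw [upd_of_efx he, W_acc he]; exact he
        have hRTs : Shape a RT l := hshT.lpt3 hsT
        have hLSs : Shape a LS l := hshS.lpt2 hsS
        split_ifs with hf1 hf2
        · -- RT high
          rcases low_or_high hab hca hcb hRTs hsol1 with h | h
          · rw [h.1] at hf1; exact absurd hf1 (by simp)
          · exact ih N PT l acc' hNn hsT hshT hlow h
        · -- LS low
          refine ih N PS l acc' hNn hsS hshS (by simpa using hf2) ?_
          have := hhigh
          change High b c (lpt3 a (put P (amin a P) g) N) l at this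
          rwa [hm] at this
        · -- RT low, LS high
          have hLShigh : High b c LS l := by
            rcases low_or_high hab hca hcb hLSs hsol2 with h | h
            · rw [h.1] at hf2; exact absurd rfl hf2
            · exact h
          -- the star inequality
          have star : ∀ u, u ≠ l → val b (P u) < val b (P l) := by
            intro u hu
            obtain ⟨x, hx, hlt⟩ := hi_ineq (fun v hv => (hLShigh v hv).1)
            have h1 := hlt u hu
            have h2 : val b (P u) ≤ val b (LS u) := by
              refine le_trans ?_ (val_le_lpt2 b a l u N PS)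
              exact val_le_put b P l g u
            have h3 : LS l = g :: P l := by
              rw [hLS, lpt2_label, hPS, put_same]
            rw [h3] at h1 hx
            rw [val_cons] at h1
            have h4 : g.2 b ≤ x.2 b := by
              rcases List.mem_cons.1 hx with rfl | hx
              · exact le_rfl
              · exact (hs.1 l x hx g (by simp)).2
            omega
          have hPTb : ∀ u, u ≠ l → ∀ x ∈ PT u, val b (PT u) ≤ val b (P u) + x.2 b := by
            intro u hu x hx
            by_cases hut : u = t
            · subst hut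
              rw [hPT, put_same] at hx ⊢
              rw [val_cons]
              have h4 : g.2 b ≤ x.2 b := by
                rcases List.mem_cons.1 hx with rfl | hx
                · exact le_rfl
                · exact (hs.1 _ x hx g (by simp)).2
              omega
            · rw [hPT, put_ne _ _ hut]; omega
          rcases advance N PT hshT hsT with hA | ⟨N2, C, h1, h2, h3, h3', h4, h5, h6, h7⟩
          · -- no centre
            exfalso
            obtain ⟨k, hk, x, hx, hlt⟩ := not_feas_iff.1 (Bool.not_eq_true _ ▸ hf1)
            rw [hRT, hA k hk] at hx hlt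
            have e1 := hPTb k hk x hx
            have e2 : val b (P l) ≤ val b (lpt3 a PT N l) :=
              le_trans (val_le_put b P t g l) (val_le_lpt3 b a l N PT)
            have e3 := star k hk
            omega
          · -- centre
            have hcent : ∀ k, feas a C k = true := by
              intro k
              by_cases hk : k = l
              · subst hk
                rw [feas_iff]
                intro u
                by_cases hu : u = amin a C
                · rw [hu]; exact ok_of_le (amin_le a C k)
                · exact ok_mono (feas_iff.1 (h5 (amin a C) h4) u) (amin_le a C k)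
              · exact h5 k hk
            have hRTc : ∀ k, feas a RT k = true := by
              intro k
              obtain ⟨s', t', hs', ht', hst', hall'⟩ := two k
              have : Shape a RT s' := by
                rw [hRT, h2]
                exact Shape.lpt3 (fun v _ => hcent v) h6
              exact this k hs'.symm
            obtain ⟨l', hl'⟩ := exists_high hab hca hcb hRTc hsol1
            have hne : l' ≠ l := by
              rintro rfl
              exact hf1 hl'.feas_b
            rw [pick_eq hne hl']
            obtain ⟨h8, h9⟩ := h7 l' hne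
            rw [h8, h9]
            by_cases hsol3 : solved (lpt2 a l' C N2)
            · have he : efx (upd acc' (lpt2 a l' C N2)) = true := efx_upd hsol3
              rw [W_acc he]; exact he
            have hCs : Shape a (lpt2 a l' C N2) l' := Shape.lpt2 (fun v _ => hcent v) h6
            refine ih N2 C l' _ (le_trans h1 hNn) h6 (fun v _ => hcent v) ?_ ?_
            · rcases low_or_high hab hca hcb hCs hsol3 with h | h
              · exact h.1
              · exfalso
                obtain ⟨x, hx, hlt⟩ := hi_ineq (fun v hv => (h v hv).1)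
                rw [lpt2_label] at hx hlt
                rw [h3 l' hne] at hx hlt
                have e1 := hPTb l' hne x hx
                have e2 := hlt l hne.symm
                have e3 : val b (P l) ≤ val b (lpt2 a l' C N2 l) :=
                  le_trans (le_trans (val_le_put b P t g l) (h3' b)) (val_le_lpt2 b a l' l N2 C)
                have e4 := star l' hne
                omega
            · rw [← h2]; exact hl'

theorem walk_eq (a b : Fin 3) (N : List Good) (acc : Part) :
    walk a b N acc =
      (let P0 : Part := fun _ => []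
       let R := lpt3 a P0 N
       let l := if feas b R 0 = true then (0 : Fin 3) else if feas b R 1 = true then 1 else 2
       W a b N P0 l (upd (upd acc R) (lpt2 a l P0 N))) := by
  simp only [walk]
  exact foldl_step a b N N _ _ _ rfl

theorem walk_acc (a b : Fin 3) (N : List Good) (acc : Part) (h : efx acc = true) :
    walk a b N acc = acc := by
  rw [walk_eq]
  simp only
  rw [upd_of_efx h, upd_of_efx h, W_acc h]

theorem walk_efx (a b : Fin 3) (hab : a ≠ b) (N : List Good) (acc : Part)
    (hN : N.Pairwise fun g h => h.2 a ≤ g.2 a ∧ h.2 b ≤ g.2 b) :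
    efx (walk a b N acc) = true := by
  obtain ⟨c, hca, hcb, hall⟩ := third hab
  rw [walk_eq]
  simp only
  set P0 : Part := fun _ => [] with hP0
  set R := lpt3 a P0 N with hR
  set l := if feas b R 0 = true then (0 : Fin 3) else if feas b R 1 = true then 1 else 2 with hl
  have hs : Srt a b P0 N := ⟨fun k h hh => by simp [hP0] at hh, hN⟩
  have hsh : ∀ l, Shape a P0 l := by
    intro l t _
    rw [feas_iff]
    intro k
    exact ok_of_le le_rfl
  have hRc : ∀ k, feas a R k = true := by
    intro k
    obtain ⟨s', t', hs', ht', hst', hall'⟩ := two k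
    exact ((hsh s').lpt3 hs) k hs'.symm
  by_cases hsol : solved R
  · have he : efx (upd acc R) = true := efx_upd hsol
    rw [upd_of_efx he, W_acc he]; exact he
  obtain ⟨l', hl'⟩ := exists_high hab hca hcb hRc hsol
  have hll : l = l' := by
    have hb := hl'.feas_b
    have h0 := fun t ht => (hl' t ht).1
    rw [hl]
    by_cases h00 : l' = 0
    · subst h00; rw [if_pos hb]
    · rw [h0 0 (Ne.symm h00)]
      by_cases h01 : l' = 1
      · subst h01; rw [if_neg (by simp), if_pos hb]
      · rw [h0 1 (Ne.symm h01)]
        have : l' = 2 := by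
          revert h00 h01; clear * -; revert l'; decide
        simp [this]
  rw [hll]
  by_cases hsol2 : solved (lpt2 a l' P0 N)
  · have he : efx (upd (upd acc R) (lpt2 a l' P0 N)) = true := efx_upd hsol2
    rw [W_acc he]; exact he
  refine main hab hca hcb N.length N P0 l' _ le_rfl hs (hsh l') ?_ hl'
  rcases low_or_high hab hca hcb ((hsh l').lpt2 hs) hsol2 with h | h
  · exact h.1
  · exfalso
    obtain ⟨x, hx, -⟩ := hi_ineq (fun v hv => (h v hv).1)
    rw [lpt2_label] at hx
    simp [hP0] at hx

/-! ### the output is a partition -/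

/-- all goods of a partition -/
def allG (P : Part) : List Good := P 0 ++ P 1 ++ P 2

theorem allG_put (P : Part) (j : Fin 3) (g : Good) : (allG (put P j g)).Perm (g :: allG P) := by
  unfold allG
  fin_cases j
  · simp only [Fin.zero_eta, put_same]
    rw [put_ne P g (show (1 : Fin 3) ≠ 0 by decide), put_ne P g (show (2 : Fin 3) ≠ 0 by decide)]
    simp
  · simp only [Fin.mk_one, put_same]
    rw [put_ne P g (show (0 : Fin 3) ≠ 1 by decide), put_ne P g (show (2 : Fin 3) ≠ 1 by decide)]
    simp only [List.append_assoc, List.cons_append]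
    exact List.perm_middle
  · simp only [Fin.reduceFinMk, put_same]
    rw [put_ne P g (show (0 : Fin 3) ≠ 2 by decide), put_ne P g (show (1 : Fin 3) ≠ 2 by decide)]
    exact List.perm_middle

theorem allG_lpt3 (a : Fin 3) : ∀ (N : List Good) (P : Part),
    (allG (lpt3 a P N)).Perm (N ++ allG P)
  | [], _ => List.Perm.refl _
  | g :: N, P => (allG_lpt3 a N (put P (amin a P) g)).trans
      (((allG_put P _ g).append_left N).trans List.perm_middle)

theorem allG_lpt2 (a l : Fin 3) : ∀ (N : List Good) (P : Part),
    (allG (lpt2 a l P N)).Perm (N ++ allG P)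
  | [], _ => List.Perm.refl _
  | g :: N, P => (allG_lpt2 a l N (put P (tmin a l P) g)).trans
      (((allG_put P _ g).append_left N).trans List.perm_middle)

theorem perm3 (A B C : List Good) : (allG ![A, C, B]).Perm (allG ![A, B, C]) ∧
    (allG ![B, A, C]).Perm (allG ![A, B, C]) := by
  constructor
  · show (A ++ C ++ B).Perm (A ++ B ++ C)
    rw [List.append_assoc, List.append_assoc]
    exact List.perm_append_comm.append_left A
  · show (B ++ A ++ C).Perm (A ++ B ++ C)
    exact List.perm_append_comm.append_right C

theorem allG_upd {acc P : Part} {L : List Good} (h1 : (allG acc).Perm L)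
    (h2 : (allG P).Perm L) : (allG (upd acc P)).Perm L := by
  have h2' : (allG ![P 0, P 1, P 2]).Perm L := h2
  have e1 := fun A B C => (perm3 A B C).1
  have e2 := fun A B C => (perm3 A B C).2
  unfold upd
  split_ifs
  · exact h1
  · exact h2'
  · exact (e1 _ _ _).trans h2'
  · exact (e2 _ _ _).trans h2'
  · exact (e1 _ _ _).trans ((e2 _ _ _).trans h2')
  · exact (e2 _ _ _).trans ((e1 _ _ _).trans h2')
  · exact (e1 _ _ _).trans ((e2 _ _ _).trans ((e1 _ _ _).trans h2'))
  · exact h1

theorem W_perm {a b : Fin 3} {L : List Good} : ∀ {N : List Good} {P : Part} {l : Fin 3}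
    {acc : Part}, (allG acc).Perm L → (N ++ allG P).Perm L → (allG (W a b N P l acc)).Perm L
  | [], _, _, _, h, _ => h
  | g :: N, P, l, acc, h, hN => by
    have hput : ∀ j, (N ++ allG (put P j g)).Perm L := fun j =>
      ((allG_put P j g).append_left N).trans (List.perm_middle.trans hN)
    have h3 : ∀ j, (allG (lpt3 a (put P j g) N)).Perm L := fun j =>
      (allG_lpt3 a N _).trans (hput j)
    have h2 : ∀ l j, (allG (lpt2 a l (put P j g) N)).Perm L := fun l j =>
      (allG_lpt2 a l N _).trans (hput j)
    rw [W]
    have key : (allG (step a b (g :: N, P, l, acc)).2.2.2).Perm L ∧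
        (N ++ allG (step a b (g :: N, P, l, acc)).2.1).Perm L := by
      simp only [step, lcase_cons]
      split_ifs
      · exact ⟨h, hput _⟩
      · exact ⟨allG_upd (allG_upd h (h3 _)) (h2 _ _), hput _⟩
      · exact ⟨allG_upd (allG_upd h (h3 _)) (h2 _ _), hput _⟩
      · exact ⟨allG_upd (allG_upd (allG_upd h (h3 _)) (h2 _ _)) (h2 _ _), hput _⟩
    exact W_perm key.1 key.2

theorem walk_perm (a b : Fin 3) (N L : List Good) (acc : Part)
    (h : (acc 0 ++ acc 1 ++ acc 2).Perm L) (hN : N.Perm L) :
    (walk a b N acc 0 ++ walk a b N acc 1 ++ walk a b N acc 2).Perm L := by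
  have h0 : (N ++ allG (fun _ => [])).Perm L := by simpa [allG] using hN
  have : (allG (walk a b N acc)).Perm L := by
    rw [walk_eq]
    exact W_perm (allG_upd (allG_upd h ((allG_lpt3 a N _).trans h0)) ((allG_lpt2 a _ N _).trans h0))
      h0
  exact this

end Pool.Agent.EFX3
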