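import Pool.Agent.Lib_helper2.PT.PTA
import Pool.Agent.Lib_helper2.PT.CDC

/-! [PTB] folds. -/

namespace Pool.Agent.PTm

set_option linter.unusedSectionVars false

variable {α β γ δ : Type} [ToD α] [ToD β] [ToD γ] [ToD δ]

theorem sz_le_of_mem {a : α} {l : List α} (h : a ∈ l) : sz a ≤ sz l := by
  induction l with
  | nil => simp at h
  | cons b t ih =>
    rw [sz_cons]
    rcases List.mem_cons.mp h with h | h
    · rw [h]; omega
    · have := ih h; omega
theorem length_le_sz (l : List α) : l.length ≤ sz l := by
  induction l with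
  | nil => simp
  | cons b t ih => rw [sz_cons, List.length_cons]; omega

theorem sz_le_of_suffix {l' l : List α} (h : l' <:+ l) : sz l' ≤ sz l := by
  obtain ⟨t, rfl⟩ := h
  induction t with
  | nil => exact le_rfl
  | cons b t ih =>
    rw [List.cons_append, sz_cons]
    omega

/-- one step of the fold -/
def fstep (s : γ → β → α → β) (q : List α × γ × β) : List α × γ × β :=
  lcase q.1 q (fun a t => (t, q.2.1, s q.2.1 q.2.2 a))

theorem fstep_iter (s : γ → β → α → β) (k : ℕ) : ∀ (l : List α) (x : γ) (b : β),
    (fstep s)^[k] (l, x, b) = (l.drop k, x, (l.take k).foldl (s x) b) := by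
  induction k with
  | zero => intro l x b; rfl
  | succ k ih =>
    intro l x b
    rw [Function.iterate_succ_apply]
    cases l with
    | nil =>
      have : fstep s ([], x, b) = ([], x, b) := rfl
      rw [this, ih]
      simp
    | cons a t =>
      have : fstep s (a :: t, x, b) = (t, x, s x b a) := rfl
      rw [this, ih]
      simp

theorem fstep_ptime {s : γ → β → α → β}
    (hs : PTime (fun p : γ × β × α => s p.1 p.2.1 p.2.2)) : PTime (fstep s) := by
  unfold fstep
  refine PTime.lcase (l := fun q : List α × γ × β => q.1) (n := fun q => q)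
    (c := fun q a t => (t, q.2.1, s q.2.1 q.2.2 a)) PTime.id.fst PTime.id ?_
  have h1 : PTime (fun p : (List α × γ × β) × α × List α => p.2.2) := PTime.id.snd.snd
  have h2 : PTime (fun p : (List α × γ × β) × α × List α => p.1.2.1) := PTime.id.fst.snd.fst
  have h3 : PTime (fun p : (List α × γ × β) × α × List α => p.1.2.2) := PTime.id.fst.snd.snd
  have h4 : PTime (fun p : (List α × γ × β) × α × List α => p.2.1) := PTime.id.snd.fst
  exact h1.pair (h2.pair (hs.comp (h2.pair (h3.pair h4))))

/-- folding with a polynomial bound on the states -/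
theorem PTime.foldl {l : γ → List α} {i : γ → β} {s : γ → β → α → β}
    (hl : PTime l) (hi : PTime i) (hs : PTime (fun p : γ × β × α => s p.1 p.2.1 p.2.2))
    (Q : Polynomial ℕ)
    (hQ : ∀ x (l' : List α), l' <+: l x → sz (l'.foldl (s x) (i x)) ≤ Q.eval (sz x)) :
    PTime (fun x => (l x).foldl (s x) (i x)) := by
  obtain ⟨F, hF, hf⟩ := fstep_ptime hs
  have hiter : ∀ (k : ℕ) (q : List α × γ × β), F^[k] (toD q) = toD ((fstep s)^[k] q) := by
    intro k
    induction k with
    | zero => intro q; rfl
    | succ k ih => intro q; rw [Function.iterate_succ_apply, hf, ih, Function.iterate_succ_apply]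
  have hinit : PTime (fun x => (l x, l x, x, i x)) := hl.pair (hl.pair (PTime.id.pair hi))
  obtain ⟨G, hG, hg⟩ := hinit
  have hcar : ∀ x, (toD (l x, l x, x, i x)).car.size = sz (l x) := fun x => rfl
  have hcdr : ∀ x, (toD (l x, l x, x, i x)).cdr = toD (l x, x, i x) := fun x => rfl
  have hIt : CD (fun y => ∃ x : γ, toD (l x, l x, x, i x) = y)
      (fun y => F^[y.car.size] y.cdr) := by
    apply CD.iter (V := fun y => ∃ x : γ, toD (l x, l x, x, i x) = y) hF _ (Q + Polynomial.X + 2) _
    · rintro _ k ⟨x, rfl⟩ _
      rw [hcdr, hiter]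
      exact ⟨_, rfl⟩
    · rintro _ k ⟨x, rfl⟩ _
      rw [hcdr, hiter, fstep_iter]
      have h1 := hQ x ((l x).take k) (List.take_prefix _ _)
      have h2 : sz ((l x).drop k) ≤ sz (l x) := sz_le_of_suffix (List.drop_suffix _ _)
      have h3 : (toD ((l x).drop k, x, ((l x).take k).foldl (s x) (i x))).size =
          sz ((l x).drop k) + (sz x + sz (((l x).take k).foldl (s x) (i x)) + 1) + 1 := rfl
      have h4 : (toD (l x, l x, x, i x)).size =
          sz (l x) + (sz (l x) + (sz x + sz (i x) + 1) + 1) + 1 := rfl
      rw [h3, Polynomial.eval_add, Polynomial.eval_add, Polynomial.eval_X]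
      have h5 : Q.eval (sz x) ≤ Q.eval (toD (l x, l x, x, i x)).size :=
        poly_mono Q (by rw [h4]; omega)
      have h6 : (2 : Polynomial ℕ).eval (toD (l x, l x, x, i x)).size = 2 := by
        have : (2 : Polynomial ℕ) = Polynomial.C 2 := rfl
        rw [this, Polynomial.eval_C]
      rw [h6]
      omega
  refine ⟨fun y => ((F^[(G y).car.size] (G y).cdr).cdr).cdr, ?_, fun x => ?_⟩
  · apply (CD.cdr (fun _ => True)).comp _ (fun _ _ => trivial)
    apply (CD.cdr (fun _ => True)).comp _ (fun _ _ => trivial)
    apply hIt.comp hG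
    rintro _ ⟨x, rfl⟩
    exact ⟨x, (hg x).symm⟩
  · show ((F^[(G (toD x)).car.size] (G (toD x)).cdr).cdr).cdr = _
    rw [hg, hcdr, hcar, hiter, fstep_iter]
    have h7 : (l x).take (sz (l x)) = l x := List.take_of_length_le (length_le_sz _)
    rw [h7]
    rfl

theorem foldl_sz_add (g : β → α → β) (B : ℕ) : ∀ (l : List α) (b : β),
    (∀ b, ∀ a ∈ l, sz (g b a) ≤ sz b + B) → sz (l.foldl g b) ≤ sz b + l.length * B := by
  intro l
  induction l with
  | nil => intro b _; simp
  | cons a t ih =>
    intro b h
    rw [List.foldl_cons, List.length_cons]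
    have h1 := ih (g b a) (fun b' a' ha' => h b' a' (List.mem_cons_of_mem _ ha'))
    have h2 := h b a List.mem_cons_self
    calc sz (List.foldl g (g b a) t) ≤ sz (g b a) + t.length * B := h1
      _ ≤ sz b + B + t.length * B := by omega
      _ = sz b + (t.length + 1) * B := by ring

/-- folding with additive growth of the states -/
theorem PTime.foldl_add {l : γ → List α} {i : γ → β} {s : γ → β → α → β}
    (hl : PTime l) (hi : PTime i) (hs : PTime (fun p : γ × β × α => s p.1 p.2.1 p.2.2))
    (R : Polynomial ℕ)
    (hR : ∀ x b a, a ∈ l x → sz (s x b a) ≤ sz b + R.eval (sz x)) :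
    PTime (fun x => (l x).foldl (s x) (i x)) := by
  obtain ⟨Pi, hPi⟩ := hi.size_le
  obtain ⟨Pl, hPl⟩ := hl.size_le
  apply PTime.foldl hl hi hs (Pi + Pl * R)
  intro x l' hl'
  have h1 := foldl_sz_add (s x) (R.eval (sz x)) l' (i x)
    (fun b a ha => hR x b a (hl'.subset ha))
  have h2 : l'.length ≤ Pl.eval (sz x) :=
    (hl'.length_le.trans (length_le_sz _)).trans (hPl x)
  rw [Polynomial.eval_add, Polynomial.eval_mul]
  have h3 := hPi x
  calc sz (l'.foldl (s x) (i x)) ≤ sz (i x) + l'.length * R.eval (sz x) := h1
    _ ≤ _ := by gcongr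

theorem eval_one' (n : ℕ) : (1 : Polynomial ℕ).eval n = 1 := Polynomial.eval_one

theorem PTime.reverse {l : γ → List α} (hl : PTime l) : PTime (fun x => (l x).reverse) := by
  obtain ⟨Pl, hPl⟩ := hl.size_le
  have h := PTime.foldl_add (s := fun (_ : γ) (r : List α) (a : α) => a :: r)
    (i := fun _ => ([] : List α)) hl (PTime.const _)
    (PTime.id.snd.snd.cons PTime.id.snd.fst) (Pl + 1) (by
      intro x b a ha
      rw [sz_cons, Polynomial.eval_add, eval_one']
      have h1 := sz_le_of_mem ha
      have h2 := hPl x
      omega)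
  refine h.of_eq fun x => ?_
  have : ∀ (l r : List α), l.foldl (fun r a => a :: r) r = l.reverse ++ r := by
    intro l
    induction l with
    | nil => intro r; rfl
    | cons a t ih => intro r; rw [List.foldl_cons, ih]; simp
  rw [this, List.append_nil]
theorem PTime.append {l l' : γ → List α} (hl : PTime l) (hl' : PTime l') :
    PTime (fun x => l x ++ l' x) := by
  obtain ⟨Pl, hPl⟩ := hl.reverse.size_le
  have h := PTime.foldl_add (l := fun x => (l x).reverse)
    (s := fun (_ : γ) (r : List α) (a : α) => a :: r) (i := l') hl.reverse hl'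
    (PTime.id.snd.snd.cons PTime.id.snd.fst) (Pl + 1) (by
      intro x b a ha
      rw [sz_cons, Polynomial.eval_add, eval_one']
      have h1 := sz_le_of_mem ha
      have h2 := hPl x
      omega)
  refine h.of_eq fun x => ?_
  have : ∀ (l r : List α), l.foldl (fun r a => a :: r) r = l.reverse ++ r := by
    intro l
    induction l with
    | nil => intro r; rfl
    | cons a t ih => intro r; rw [List.foldl_cons, ih]; simp
  rw [this, List.reverse_reverse]

theorem PTime.foldr_add {l : γ → List α} {i : γ → β} {s : γ → α → β → β}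
    (hl : PTime l) (hi : PTime i) (hs : PTime (fun p : γ × α × β => s p.1 p.2.1 p.2.2))
    (R : Polynomial ℕ)
    (hR : ∀ x b a, a ∈ l x → sz (s x a b) ≤ sz b + R.eval (sz x)) :
    PTime (fun x => (l x).foldr (s x) (i x)) := by
  have h := PTime.foldl_add (l := fun x => (l x).reverse) (i := i)
    (s := fun x b a => s x a b) hl.reverse hi
    (hs.comp (PTime.id.fst.pair (PTime.id.snd.snd.pair PTime.id.snd.fst))) R
    (fun x b a ha => hR x b a (List.mem_reverse.mp ha))
  exact h.of_eq fun x => List.foldl_reverse

/-- the state of the structural recursion -/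
theorem listRec_fold (n : β) (c : α → List α → β → β) : ∀ l : List α,
    l.foldr (fun a (q : List α × β) => (a :: q.1, c a q.1 q.2)) ([], n) =
      (l, List.rec (motive := fun _ => β) n (fun a t r => c a t r) l) := by
  intro l
  induction l with
  | nil => rfl
  | cons a t ih => rw [List.foldr_cons, ih]

theorem listRec_sz (n : β) (c : α → List α → β → β) (B : ℕ) (L : List α)
    (h : ∀ b a t, (a :: t) <:+ L → sz (c a t b) ≤ sz b + B) : ∀ l : List α, l <:+ L →
    sz (List.rec (motive := fun _ => β) n (fun a t r => c a t r) l : β) ≤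
      sz n + l.length * B := by
  intro l
  induction l with
  | nil => intro _; simp
  | cons a t ih =>
    intro hl
    have h1 := ih ((List.suffix_cons a t).trans hl)
    have h2 := h (List.rec (motive := fun _ => β) n (fun a t r => c a t r) t) a t hl
    rw [List.length_cons]
    calc _ ≤ sz (List.rec (motive := fun _ => β) n (fun a t r => c a t r) t : β) + B := h2
      _ ≤ sz n + t.length * B + B := by omega
      _ = sz n + (t.length + 1) * B := by ring

/-- structural recursion with additive growth -/
theorem PTime.listRec_add {l : γ → List α} {n : γ → β} {c : γ → α → List α → β → β}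
    (hl : PTime l) (hn : PTime n)
    (hc : PTime (fun p : γ × α × List α × β => c p.1 p.2.1 p.2.2.1 p.2.2.2))
    (R : Polynomial ℕ)
    (hR : ∀ x b a t, (a :: t) <:+ l x → sz (c x a t b) ≤ sz b + R.eval (sz x)) :
    PTime (fun x => List.rec (motive := fun _ => β) (n x) (fun a t r => c x a t r) (l x)) := by
  obtain ⟨Pn, hPn⟩ := hn.size_le
  obtain ⟨Pl, hPl⟩ := hl.size_le
  have hs : PTime (fun p : γ × (List α × β) × α =>
      ((p.2.2 :: p.2.1.1, c p.1 p.2.2 p.2.1.1 p.2.1.2) : List α × β)) := by
    have h1 : PTime (fun p : γ × (List α × β) × α => p.1) := PTime.id.fst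
    have h2 : PTime (fun p : γ × (List α × β) × α => p.2.2) := PTime.id.snd.snd
    have h3 : PTime (fun p : γ × (List α × β) × α => p.2.1.1) := PTime.id.snd.fst.fst
    have h4 : PTime (fun p : γ × (List α × β) × α => p.2.1.2) := PTime.id.snd.fst.snd
    exact (h2.cons h3).pair (hc.comp (h1.pair (h2.pair (h3.pair h4))))
  have h := PTime.foldl (l := fun x => (l x).reverse) (i := fun x => (([] : List α), n x))
    (s := fun x (q : List α × β) a => (a :: q.1, c x a q.1 q.2)) hl.reverse
    ((PTime.const ([] : List α)).pair hn) hs (Pl + Pn + Pl * R + 1) (by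
      intro x l' hl'
      have h1 : l'.reverse <:+ l x := by
        rw [← List.reverse_prefix, List.reverse_reverse]
        exact hl'
      have h2 : l'.foldl (fun (q : List α × β) a => (a :: q.1, c x a q.1 q.2)) ([], n x) =
          (l'.reverse, List.rec (motive := fun _ => β) (n x) (fun a t r => c x a t r)
            l'.reverse) := by
        rw [← listRec_fold (n x) (c x) l'.reverse, List.foldr_reverse]
      rw [h2, sz_pair]
      have h3 := listRec_sz (n x) (c x) (R.eval (sz x)) (l x)
        (fun b a t hat => hR x b a t hat) l'.reverse h1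
      have h4 := sz_le_of_suffix h1
      have h5 := hPl x
      have h6 := hPn x
      have h7 : l'.reverse.length ≤ Pl.eval (sz x) :=
        (h1.length_le.trans (length_le_sz _)).trans h5
      have h8 : l'.reverse.length * R.eval (sz x) ≤ Pl.eval (sz x) * R.eval (sz x) := by gcongr
      simp only [Polynomial.eval_add, Polynomial.eval_mul, eval_one']
      omega)
  refine (h.snd).of_eq fun x => ?_
  rw [List.foldl_reverse, listRec_fold (n x) (c x) (l x)]

theorem PTime.map {l : γ → List α} {f : γ → α → β} (hl : PTime l)
    (hf : PTime (fun p : γ × α => f p.1 p.2)) : PTime (fun x => (l x).map (f x)) := by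
  obtain ⟨Pf, hPf⟩ := hf.size_le
  obtain ⟨Pl, hPl⟩ := hl.size_le
  have h1 : PTime (fun p : γ × α × List β => p.1) := PTime.id.fst
  have h2 : PTime (fun p : γ × α × List β => p.2.1) := PTime.id.snd.fst
  have h3 : PTime (fun p : γ × α × List β => p.2.2) := PTime.id.snd.snd
  have h := PTime.foldr_add (l := l) (i := fun _ => ([] : List β))
    (s := fun x a r => f x a :: r) hl (PTime.const _) ((hf.comp (h1.pair h2)).cons h3)
    (Pf.comp (Polynomial.X + Pl + 1) + 1) (by
      intro x b a ha
      rw [sz_cons]
      have h4 := hPf (x, a)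
      rw [sz_pair] at h4
      have h5 := (sz_le_of_mem ha).trans (hPl x)
      have h6 : Pf.eval (sz x + sz a + 1) ≤ Pf.eval (sz x + Pl.eval (sz x) + 1) :=
        poly_mono Pf (by omega)
      simp only [Polynomial.eval_add, Polynomial.eval_comp, Polynomial.eval_X, eval_one']
      simp only at h4
      omega)
  refine h.of_eq fun x => ?_
  generalize l x = L
  induction L with
  | nil => rfl
  | cons a t ih => rw [List.foldr_cons, ih, List.map_cons]
theorem PTime.all {l : γ → List α} {f : γ → α → Bool} (hl : PTime l)
    (hf : PTime (fun p : γ × α => f p.1 p.2)) : PTime (fun x => (l x).all (f x)) := by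
  have h1 : PTime (fun p : γ × α × Bool => p.1) := PTime.id.fst
  have h2 : PTime (fun p : γ × α × Bool => p.2.1) := PTime.id.snd.fst
  have h3 : PTime (fun p : γ × α × Bool => p.2.2) := PTime.id.snd.snd
  have h := PTime.foldr_add (l := l) (i := fun _ => true)
    (s := fun x a r => f x a && r) hl (PTime.const _) ((hf.comp (h1.pair h2)).and h3)
    (Polynomial.C 3) (by
      intro x b a _
      rw [Polynomial.eval_C]
      generalize (f x a && b) = c
      cases c
      · rw [sz_false]; omega
      · rw [sz_true]; omega)
  refine h.of_eq fun x => ?_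
  generalize l x = L
  induction L with
  | nil => rfl
  | cons a t ih => rw [List.foldr_cons, ih, List.all_cons]

end Pool.Agent.PTm
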